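import Mathlib
import Pool.Agent.H322R3.HypDefs

/-!
Limit points and conical limit points of convergence actions.
-/

set_option autoImplicit false

namespace Pool.Agent.H204.BB

open Filter Topology Set

/-- The sequence `γ` of elements of `Γ` converges to the constant `c` uniformly on the compact
subsets of `X - {b}`. -/
def ConvergesOff {Γ X : Type*} [Group Γ] [TopologicalSpace X] [MulAction Γ X] (γ : ℕ → Γ)
    (b c : X) : Prop :=
  ∀ K : Set X, IsCompact K → b ∉ K → ∀ U ∈ 𝓝 c, ∀ᶠ n in atTop, ∀ x ∈ K, γ n • x ∈ U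

/-- The limit set of an action of `Γ` on `X`: the points `c` for which there are a sequence `γ` of
distinct elements of `Γ` and a point `b` such that `γ` converges to `c` uniformly on the compact
subsets of `X - {b}`. -/
def LimitSet (Γ : Type*) (X : Type*) [Group Γ] [TopologicalSpace X] [MulAction Γ X] : Set X :=
  {c | ∃ (γ : ℕ → Γ) (b : X), Function.Injective γ ∧ ConvergesOff γ b c}

/-- `z` is conical: there are a sequence `γ` in `Γ` and points `b ≠ c` such that `γ n • z → b` and
`γ n • y → c` for all `y ≠ z`. -/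
def IsConicalPt (Γ : Type*) {X : Type*} [Group Γ] [TopologicalSpace X] [MulAction Γ X]
    (z : X) : Prop :=
  ∃ (γ : ℕ → Γ) (b c : X), b ≠ c ∧ Tendsto (fun n => γ n • z) atTop (𝓝 b) ∧
    ∀ y, y ≠ z → Tendsto (fun n => γ n • y) atTop (𝓝 c)

/-- The set of non-conical points of the limit set. -/
def NonConical (Γ : Type*) (X : Type*) [Group Γ] [TopologicalSpace X] [MulAction Γ X] : Set X :=
  {z ∈ LimitSet Γ X | ¬ IsConicalPt Γ z}

/-- The action of `Γ` on the space of distinct triples of `X` is properly discontinuous: for every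
compact set `K` of distinct triples, `γ K` meets `K` for only finitely many `γ`. -/
def IsProperOnTriples (Γ : Type*) (X : Type*) [Group Γ] [TopologicalSpace X]
    [MulAction Γ X] : Prop :=
  ∀ K : Set (X × X × X), IsCompact K → (∀ t ∈ K, t.1 ≠ t.2.1 ∧ t.1 ≠ t.2.2 ∧ t.2.1 ≠ t.2.2) →
    {γ : Γ | ∃ t ∈ K, (γ • t.1, γ • t.2.1, γ • t.2.2) ∈ K}.Finite

end Pool.Agent.H204.BB
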