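import Mathlib
import Pool.Agent.R639.CT.Free

/-!
# The side function of a letter of a free group

Let `c` be a letter of the basis of a free group. `sd c g` is true iff the reduced word of `g`
starts with the letter `c`. In terms of the Bass-Serre tree of the splitting of the free group as
`A * ⟨c⟩`, where `A` is generated by the other letters, `sd c (h⁻¹ * g)` says on which side of the
edge `h` the vertex `g A` lies.
-/

set_option autoImplicit false
set_option linter.unusedSectionVars false

namespace Pool.Agent.H204.BB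

open FreeGroup Pool.Agent.R639.CT Pool.Agent.H322R3.Hyp

variable {α : Type*} [DecidableEq α]

/-- `sd c g`: the reduced word of `g` starts with the letter `c` -/
def sd (c : α) (g : FreeGroup α) : Bool := decide (g.toWord.head? = some (c, true))

/-- no cancellation if the first letters are different -/
lemma toWord_inv_mul {u g : FreeGroup α} (h : g.toWord.head? ≠ u.toWord.head?) :
    (u⁻¹ * g).toWord = (u⁻¹).toWord ++ g.toWord := by
  rw [toWord_mul]
  apply IsReduced.reduce_eq
  unfold FreeGroup.IsReduced
  rw [List.isChain_append]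
  refine ⟨isReduced_toWord, isReduced_toWord, ?_⟩
  intro x hx y hy
  rw [toWord_inv] at hx
  cases hu : u.toWord with
  | nil => rw [hu] at hx; simp at hx
  | cons a l =>
    rw [hu, invRev_cons] at hx
    simp [invRev] at hx
    rw [hu] at h
    rw [Option.mem_def] at hy
    rw [hy] at h
    simp only [List.head?_cons, ne_eq, Option.some.injEq] at h
    subst hx
    intro h1
    simp only at h1 ⊢
    by_contra hne
    apply h
    ext
    · exact h1.symm
    · revert hne
      cases a.2 <;> cases y.2 <;> simp

lemma head_inv_mul {u g : FreeGroup α} (hu : u ≠ 1) (h : g.toWord.head? ≠ u.toWord.head?) :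
    (u⁻¹ * g).toWord.head? = (u⁻¹).toWord.head? := by
  rw [toWord_inv_mul h, List.head?_append_of_ne_nil]
  rw [Ne, toWord_eq_nil_iff]
  simpa using hu

/-- if `u` and `g` are on different sides of the edge `1` then `1` and `g` are on the same side
of the edge `u` -/
lemma sd_inv_mul (c : α) {u g : FreeGroup α} (hu : u ≠ 1) (h : sd c g ≠ sd c u) :
    sd c (u⁻¹ * g) = sd c u⁻¹ := by
  unfold sd
  rw [head_inv_mul hu]
  intro h'
  apply h
  unfold sd
  rw [h']

/-- one of the generators or its inverse -/
def ltr (x : α × Bool) : FreeGroup α := FreeGroup.mk [x]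

lemma toWord_ltr (x : α × Bool) : (ltr x).toWord = [x] := by
  unfold ltr
  rw [toWord_mk]
  rfl

lemma ltr_inv (x : α × Bool) : (ltr x)⁻¹ = ltr (x.1, !x.2) := by
  unfold ltr
  rw [inv_mk]
  rfl

lemma mk_cons (x : α × Bool) (L : List (α × Bool)) :
    FreeGroup.mk (x :: L) = ltr x * FreeGroup.mk L := by
  unfold ltr
  rw [mul_mk]
  rfl

/-- The edge `v` separates `1` from a letter `x` only if `v = 1` or `v = x`. -/
lemma sep_ltr (c : α) (x : α × Bool) (v : FreeGroup α) (h : sd c (v⁻¹ * ltr x) ≠ sd c v⁻¹) :
    v = 1 ∨ v = ltr x := by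
  by_contra hcon
  push Not at hcon
  obtain ⟨h1, h2⟩ := hcon
  by_cases hd : (ltr x).toWord.head? = v.toWord.head?
  · rw [toWord_ltr] at hd
    cases hv : v.toWord with
    | nil => rw [hv] at hd; simp at hd
    | cons a l =>
      rw [hv] at hd
      simp only [List.head?_cons, Option.some.injEq] at hd
      subst hd
      have hred : IsReduced (x :: l) := by rw [← hv]; exact isReduced_toWord
      have hv2 : v = ltr x * FreeGroup.mk l := by
        rw [← mk_cons, ← hv, mk_toWord]
      set v' := FreeGroup.mk l with hv'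
      have hw : v'.toWord = l := by
        rw [hv', toWord_mk]
        have ht : IsReduced l := List.IsChain.tail hred
        exact ht.reduce_eq
      have hv1 : v' ≠ 1 := by
        intro h
        rw [h, mul_one] at hv2
        exact h2 hv2
      have key : (v'⁻¹ * (ltr x)⁻¹).toWord.head? = (v'⁻¹).toWord.head? := by
        apply head_inv_mul hv1
        rw [hw, ltr_inv, toWord_ltr]
        intro h
        cases l with
        | nil => simp at h
        | cons b m =>
          simp only [List.head?_cons, Option.some.injEq] at h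
          have h3 := hred
          unfold FreeGroup.IsReduced at h3
          rw [List.isChain_cons_cons] at h3
          have h4 := h3.1 (by rw [← h])
          rw [← h] at h4
          simp at h4
      apply h
      unfold sd
      have e1 : v⁻¹ * ltr x = v'⁻¹ := by rw [hv2]; group
      have e2 : v⁻¹ = v'⁻¹ * (ltr x)⁻¹ := by rw [hv2]; group
      rw [e1, e2, key]
  · apply h
    unfold sd
    rw [head_inv_mul h1 hd]

/-- The edges which separate `1` from `g` are on the geodesic from `1` to `g`. -/
lemma sep_mk (c : α) (L : List (α × Bool)) : ∀ (v : FreeGroup α),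
    sd c (v⁻¹ * FreeGroup.mk L) ≠ sd c v⁻¹ →
      norm v + norm (v⁻¹ * FreeGroup.mk L) ≤ L.length := by
  induction L with
  | nil =>
    intro v h
    exfalso
    apply h
    rw [← one_eq_mk, mul_one]
  | cons x L ih =>
    intro v h
    rw [mk_cons] at h ⊢
    have hx : norm (ltr x) = 1 := by
      unfold FreeGroup.norm
      rw [toWord_ltr]
      rfl
    have hL : norm (FreeGroup.mk L) ≤ L.length := norm_mk_le
    by_cases h1 : sd c (v⁻¹ * ltr x) = sd c v⁻¹
    · have h2 : sd c (((ltr x)⁻¹ * v)⁻¹ * FreeGroup.mk L) ≠ sd c ((ltr x)⁻¹ * v)⁻¹ := by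
        rw [mul_inv_rev, inv_inv, h1, mul_assoc]
        exact h
      have h3 := ih _ h2
      have e1 : v = ltr x * ((ltr x)⁻¹ * v) := by group
      have e2 : v⁻¹ * (ltr x * FreeGroup.mk L) = ((ltr x)⁻¹ * v)⁻¹ * FreeGroup.mk L := by group
      have h4 : norm v ≤ norm (ltr x) + norm ((ltr x)⁻¹ * v) := by
        conv_lhs => rw [e1]
        exact norm_mul_le _ _
      rw [e2, List.length_cons]
      omega
    · rcases sep_ltr c x v h1 with h2 | h2
      · subst h2
        rw [inv_one, one_mul, FreeGroup.norm_one, List.length_cons]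
        have := norm_mul_le (ltr x) (FreeGroup.mk L)
        omega
      · subst h2
        rw [← mul_assoc, inv_mul_cancel, one_mul, List.length_cons]
        omega

lemma sep_norm (c : α) {v g : FreeGroup α} (h : sd c (v⁻¹ * g) ≠ sd c v⁻¹) :
    norm v + norm (v⁻¹ * g) ≤ norm g := by
  have := sep_mk c g.toWord v
  rw [mk_toWord] at this
  exact this h

lemma finite_norm [Finite α] (n : ℕ) : {g : FreeGroup α | norm g ≤ n}.Finite := by
  apply Set.Finite.of_finite_image (f := toWord)
  · apply (List.finite_length_le (α × Bool) n).subset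
    rintro _ ⟨g, hg, rfl⟩
    exact hg
  · exact toWord_injective.injOn

/-- only finitely many edges separate `1` from `g` -/
lemma finite_sep [Finite α] (c : α) (g : FreeGroup α) :
    {v : FreeGroup α | sd c (v⁻¹ * g) ≠ sd c v⁻¹}.Finite := by
  apply (finite_norm (α := α) (norm g)).subset
  intro v hv
  have := sep_norm c hv
  show norm v ≤ norm g
  omega

/-- An edge which separates `x` and `y` is at least as far from `1` as their Gromov product. -/
lemma sep_gprod (c : α) {h x y : FreeGroup α} (hs : sd c (h⁻¹ * x) ≠ sd c (h⁻¹ * y)) :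
    gprod (Set.range (FreeGroup.of : α → FreeGroup α)) 1 x y ≤ norm h := by
  have h1 : sd c ((x⁻¹ * h)⁻¹ * (x⁻¹ * y)) ≠ sd c (x⁻¹ * h)⁻¹ := by
    have e1 : (x⁻¹ * h)⁻¹ * (x⁻¹ * y) = h⁻¹ * y := by group
    have e2 : (x⁻¹ * h)⁻¹ = h⁻¹ * x := by group
    rw [e1, e2]
    exact hs.symm
  have h2 := sep_norm c h1
  have e1 : (x⁻¹ * h)⁻¹ * (x⁻¹ * y) = h⁻¹ * y := by group
  rw [e1] at h2
  have e2 : norm (x⁻¹ * h) = norm (h⁻¹ * x) := by
    rw [← norm_inv_eq]; congr 1; group
  rw [e2] at h2
  have h3 : norm x ≤ norm h + norm (h⁻¹ * x) := by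
    have := norm_mul_le h (h⁻¹ * x)
    rwa [mul_inv_cancel_left] at this
  have h4 : norm y ≤ norm h + norm (h⁻¹ * y) := by
    have := norm_mul_le h (h⁻¹ * y)
    rwa [mul_inv_cancel_left] at this
  rw [gprod_one closure_free, wlen_free, wlen_free, wlen_free]
  have h5 : (x.toWord.length : ℝ) + y.toWord.length - (x⁻¹ * y).toWord.length ≤ 2 * norm h := by
    have : x.toWord.length + y.toWord.length ≤ (x⁻¹ * y).toWord.length + 2 * norm h := by
      change norm x + norm y ≤ norm (x⁻¹ * y) + 2 * norm h
      omega
    have h6 : (x.toWord.length : ℝ) + y.toWord.length ≤ (x⁻¹ * y).toWord.length + 2 * norm h := by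
      exact_mod_cast this
    linarith
  linarith

lemma sd_one (c : α) : sd c 1 = false := by
  unfold sd
  simp

lemma sd_of_self (c : α) : sd c (FreeGroup.of c) = true := by
  unfold sd
  simp

lemma sd_inv_of (c a : α) : sd c (FreeGroup.of a)⁻¹ = false := by
  unfold sd
  simp [invRev]

lemma sd_of_ne {c a : α} (h : a ≠ c) : sd c (FreeGroup.of a) = false := by
  unfold sd
  simp [h]

lemma of_eq_ltr (a : α) : FreeGroup.of a = ltr (a, true) := rfl

/-- Only the edge `1` separates `1` from `c`. -/
lemma sep_c (c : α) {v : FreeGroup α} (h : sd c (v⁻¹ * FreeGroup.of c) ≠ sd c v⁻¹) : v = 1 := by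
  rcases sep_ltr c (c, true) v h with h1 | h1
  · exact h1
  · exfalso
    apply h
    rw [h1, ← of_eq_ltr, inv_mul_cancel, sd_one, sd_inv_of]

/-- No edge separates `1` from a letter different from `c`. -/
lemma sep_ne {c a : α} (hac : a ≠ c) (v : FreeGroup α) :
    sd c (v⁻¹ * FreeGroup.of a) = sd c v⁻¹ := by
  by_contra h
  rcases sep_ltr c (a, true) v h with h1 | h1
  · subst h1
    apply h
    rw [inv_one, one_mul, sd_one, sd_of_ne hac]
  · apply h
    rw [h1, ← of_eq_ltr, inv_mul_cancel, sd_one, sd_inv_of]

end Pool.Agent.H204.BB
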