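import Mathlib
import Pool.Agent.H204.BB.Word
import Pool.Agent.H204.BB.Dyn

/-!
# The Bowditch boundary of a free group relative to a free factor

`ZZ c` is the closure of the set of the vertices `g A` of the Bass-Serre tree of the splitting
`A * ⟨c⟩` in the space of all functions on its edges; the vertex `g A` is the function that gives
for each edge the side on which this vertex lies.
-/

set_option autoImplicit false
set_option linter.unusedSectionVars false

namespace Pool.Agent.H204.BB

open FreeGroup Filter Topology Pool.Agent.R639.CT Pool.Agent.H322R3.Hyp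

variable {α : Type} [DecidableEq α]

/-- the vertex `g A`, as a function on the edges -/
def vtx (c : α) (g : FreeGroup α) : FreeGroup α → Bool := fun h => sd c (h⁻¹ * g)

/-- the set of vertices and its limits -/
def ZSet (c : α) : Set (FreeGroup α → Bool) := closure (Set.range (vtx c))

/-- The Bowditch boundary of the free group on `α` relative to the free factor generated by
the letters different from `c`: the closure of the set of vertices of the Bass-Serre tree. -/
def ZZ (c : α) : Type := ↥(ZSet c)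

instance (c : α) : TopologicalSpace (ZZ c) := inferInstanceAs (TopologicalSpace ↥(ZSet c))

/-- translation of functions on the edges -/
def trl (g : FreeGroup α) (z : FreeGroup α → Bool) : FreeGroup α → Bool := fun h => z (g⁻¹ * h)

lemma trl_vtx (c : α) (g k : FreeGroup α) : trl g (vtx c k) = vtx c (g * k) := by
  funext h
  unfold trl vtx
  congr 1
  group

lemma continuous_trl (g : FreeGroup α) : Continuous (trl g) :=
  continuous_pi fun h => continuous_apply (g⁻¹ * h)

lemma trl_mem {c : α} (g : FreeGroup α) {z : FreeGroup α → Bool} (hz : z ∈ ZSet c) :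
    trl g z ∈ ZSet c := by
  refine map_mem_closure (continuous_trl g) hz ?_
  rintro _ ⟨k, rfl⟩
  exact ⟨g * k, (trl_vtx c g k).symm⟩

instance (c : α) : MulAction (FreeGroup α) (ZZ c) where
  smul g z := ⟨trl g z.1, trl_mem g z.2⟩
  one_smul z := by
    apply Subtype.ext
    funext h
    show z.1 (1⁻¹ * h) = z.1 h
    rw [inv_one, one_mul]
  mul_smul g k z := by
    apply Subtype.ext
    funext h
    show z.1 ((g * k)⁻¹ * h) = z.1 (k⁻¹ * (g⁻¹ * h))
    rw [mul_inv_rev, mul_assoc]

lemma smul_apply {c : α} (g : FreeGroup α) (z : ZZ c) (h : FreeGroup α) :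
    (g • z).1 h = z.1 (g⁻¹ * h) := rfl

/-- the vertex `g A`, as a point of `ZZ c` -/
def pt (c : α) (g : FreeGroup α) : ZZ c := ⟨vtx c g, subset_closure ⟨g, rfl⟩⟩

lemma smul_pt {c : α} (g k : FreeGroup α) : g • pt c k = pt c (g * k) := by
  apply Subtype.ext
  exact trl_vtx c g k

lemma continuous_coord {c : α} (h : FreeGroup α) : Continuous (fun z : ZZ c => z.1 h) :=
  (continuous_apply h).comp continuous_subtype_val

lemma continuous_smul {c : α} (g : FreeGroup α) : Continuous (fun z : ZZ c => g • z) :=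
  Continuous.subtype_mk ((continuous_trl g).comp continuous_subtype_val) _

instance (c : α) : CompactSpace (ZZ c) :=
  isCompact_iff_compactSpace.mp (isClosed_closure (s := Set.range (vtx c))).isCompact

instance (c : α) : T2Space (ZZ c) := inferInstanceAs (T2Space ↥(ZSet c))

instance [Countable α] : Countable (FreeGroup α) := toWord_injective.countable

instance metrizable [Countable α] (c : α) : TopologicalSpace.MetrizableSpace (ZZ c) :=
  inferInstanceAs (TopologicalSpace.MetrizableSpace ↥(ZSet c))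

/-- basic neighbourhoods -/
lemma exists_basic {c : α} {a : ZZ c} {U : Set (ZZ c)} (hU : U ∈ 𝓝 a) :
    ∃ I : Finset (FreeGroup α), ∀ z : ZZ c, (∀ h ∈ I, z.1 h = a.1 h) → z ∈ U := by
  obtain ⟨V, hVU, hV, haV⟩ := mem_nhds_iff.1 hU
  obtain ⟨W, hW, rfl⟩ := isOpen_induced_iff.1 hV
  obtain ⟨I, u, hu1, hu2⟩ := isOpen_pi_iff.1 hW a.1 haV
  refine ⟨I, fun z hz => hVU (hu2 ?_)⟩
  intro h hh
  rw [hz h hh]
  exact (hu1 h hh).2

lemma tendsto_iff {c : α} {ι : Type*} {l : Filter ι} {x : ι → ZZ c} {a : ZZ c} :
    Tendsto x l (𝓝 a) ↔ ∀ h, ∀ᶠ i in l, (x i).1 h = a.1 h := by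
  constructor
  · intro hx h
    have h1 := ((continuous_coord h).tendsto a).comp hx
    have h2 : ∀ᶠ b in 𝓝 (a.1 h), b = a.1 h := by
      rw [nhds_discrete]
      exact Filter.eventually_pure.2 rfl
    exact h1.eventually h2
  · intro hx
    rw [tendsto_def]
    intro U hU
    obtain ⟨I, hI⟩ := exists_basic hU
    have : ∀ᶠ i in l, ∀ h ∈ I, (x i).1 h = a.1 h :=
      (Finset.eventually_all I).2 fun h _ => hx h
    exact this.mono fun i hi => hI _ hi

lemma eventually_notMem {β : Type*} {γ : ℕ → β} (hγ : Function.Injective γ) {s : Set β}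
    (hs : s.Finite) : ∀ᶠ n in atTop, γ n ∉ s := by
  have h1 := hγ.tendsto_cofinite
  rw [Nat.cofinite_eq_atTop] at h1
  exact h1.eventually hs.eventually_cofinite_notMem

/-- the main step in the proof of the convergence property -/
lemma key [Finite α] (c : α) (γ : ℕ → FreeGroup α) (hγ : Function.Injective γ)
    (f u : FreeGroup α) (C B : Bool) (hC : ∀ᶠ n in atTop, vtx c (γ n) f = C)
    (hB : ∀ᶠ n in atTop, vtx c (γ n)⁻¹ u = B) :
    ∀ᶠ n in atTop, ∀ z ∈ ZSet c, z ((γ n)⁻¹ * f) = C ∨ z u = B := by
  have hv : Function.Injective (fun n => (γ n)⁻¹ * f) := by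
    intro i j hij
    apply hγ
    simpa using hij
  have hw : Function.Injective (fun n => γ n * u) := by
    intro i j hij
    apply hγ
    simpa using hij
  filter_upwards [hC, hB, eventually_notMem hv (Set.finite_singleton u),
    eventually_notMem hv (finite_sep c u), eventually_notMem hw (finite_sep c f)]
    with n h1 h2 h3 h4 h5
  have hcl : IsClosed {z : FreeGroup α → Bool | z ((γ n)⁻¹ * f) = C ∨ z u = B} := by
    apply IsClosed.union
    · exact isClosed_singleton.preimage (continuous_apply ((γ n)⁻¹ * f))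
    · exact isClosed_singleton.preimage (continuous_apply u)
  refine closure_minimal ?_ hcl
  rintro _ ⟨g, rfl⟩
  show vtx c g ((γ n)⁻¹ * f) = C ∨ vtx c g u = B
  by_contra hcon
  push Not at hcon
  obtain ⟨h6, h7⟩ := hcon
  set v := (γ n)⁻¹ * f with hvdef
  simp only [Set.mem_singleton_iff] at h3
  replace h4 : sd c (v⁻¹ * u) = sd c v⁻¹ := by
    by_contra h
    exact h4 h
  replace h5 : sd c ((γ n * u)⁻¹ * f) = sd c (γ n * u)⁻¹ := by
    by_contra h
    exact h5 h
  have hvC : sd c v⁻¹ = C := by
    rw [← h1]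
    unfold vtx
    congr 1
    rw [hvdef]
    group
  have hune : v⁻¹ * u ≠ 1 := by
    intro h
    apply h3
    have := congrArg (fun t => v * t) h
    simpa using this.symm
  have h8 : sd c (v⁻¹ * g) ≠ sd c (v⁻¹ * u) := by
    rw [h4, hvC]
    exact h6
  have h9 := sd_inv_mul c hune h8
  apply h7
  unfold vtx
  have e1 : (v⁻¹ * u)⁻¹ * (v⁻¹ * g) = u⁻¹ * g := by group
  have e2 : (v⁻¹ * u)⁻¹ = (γ n * u)⁻¹ * f := by rw [hvdef]; group
  rw [e1, e2, h5] at h9
  rw [h9, ← h2]
  unfold vtx
  congr 1
  group

/-- the convergence property, with the limits -/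
lemma convergesOff [Finite α] {c : α} (γ : ℕ → FreeGroup α) (hγ : Function.Injective γ)
    {a b : ZZ c} (ha : Tendsto (fun n => pt c (γ n)) atTop (𝓝 a))
    (hb : Tendsto (fun n => pt c (γ n)⁻¹) atTop (𝓝 b)) : ConvergesOff γ b a := by
  intro K hK hbK U hU
  obtain ⟨I, hI⟩ := exists_basic hU
  -- a finite set of coordinates that separate `K` from `b`
  obtain ⟨J, hJ⟩ : ∃ J : Finset (FreeGroup α), ∀ z ∈ K, ∃ u ∈ J, z.1 u ≠ b.1 u := by
    obtain ⟨J, hJ⟩ := hK.elim_finite_subcover (fun u : FreeGroup α => {z : ZZ c | z.1 u ≠ b.1 u})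
      (fun u => by
        exact (isOpen_discrete ({b.1 u}ᶜ : Set Bool)).preimage (continuous_coord u))
      (by
        intro z hz
        rw [Set.mem_iUnion]
        by_contra hcon
        push Not at hcon
        apply hbK
        have : z = b := by
          apply Subtype.ext
          funext u
          by_contra h
          exact hcon u h
        rw [← this]
        exact hz)
    refine ⟨J, fun z hz => ?_⟩
    have := hJ hz
    simp only [Set.mem_iUnion, exists_prop] at this
    exact this
  have h1 := tendsto_iff.1 ha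
  have h2 := tendsto_iff.1 hb
  have h3 : ∀ᶠ n in atTop, ∀ f ∈ I, ∀ u ∈ J, ∀ z ∈ ZSet c,
      z ((γ n)⁻¹ * f) = a.1 f ∨ z u = b.1 u := by
    refine (Finset.eventually_all I).2 fun f _ => (Finset.eventually_all J).2 fun u _ => ?_
    exact key c γ hγ f u _ _ (h1 f) (h2 u)
  filter_upwards [h3] with n hn z hz
  apply hI
  intro f hf
  obtain ⟨u, hu, hzu⟩ := hJ z hz
  rcases hn f hf u hu z.1 z.2 with h | h
  · exact h
  · exact absurd h hzu

theorem isConvergenceAction [Finite α] (c : α) : IsConvergenceAction (FreeGroup α) (ZZ c) := by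
  intro γ hγ
  obtain ⟨p, φ, hφ, hp⟩ := SeqCompactSpace.tendsto_subseq
    (fun n => ((pt c (γ n), pt c (γ n)⁻¹) : ZZ c × ZZ c))
  refine ⟨φ, hφ, p.1, p.2, ?_⟩
  have h1 : Tendsto (fun n => pt c (γ (φ n))) atTop (𝓝 p.1) :=
    (continuous_fst.tendsto p).comp hp
  have h2 : Tendsto (fun n => pt c (γ (φ n))⁻¹) atTop (𝓝 p.2) :=
    (continuous_snd.tendsto p).comp hp
  exact convergesOff (fun n => γ (φ n)) (hγ.comp hφ.injective) h1 h2

/-- vertices are stabilized by conjugates of `A` -/
lemma pt_mul_ne {c a : α} (hac : a ≠ c) (g : FreeGroup α) : pt c (g * of a) = pt c g := by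
  apply Subtype.ext
  funext h
  show sd c (h⁻¹ * (g * of a)) = sd c (h⁻¹ * g)
  have := sep_ne hac (g⁻¹ * h)
  have e1 : (g⁻¹ * h)⁻¹ * of a = h⁻¹ * (g * of a) := by group
  have e2 : (g⁻¹ * h)⁻¹ = h⁻¹ * g := by group
  rwa [e1, e2] at this

lemma pt_mul_pow {c a : α} (hac : a ≠ c) (g : FreeGroup α) (n : ℕ) :
    pt c (g * of a ^ n) = pt c g := by
  induction n with
  | zero => simp
  | succ n ih => rw [pow_succ, ← mul_assoc, pt_mul_ne hac, ih]

lemma pow_injective (a : α) : Function.Injective (fun n : ℕ => (of a : FreeGroup α) ^ n) := by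
  intro i j hij
  have := congrArg FreeGroup.norm hij
  simpa using this

/-- all vertices are limit points -/
lemma pt_mem_limitSet [Finite α] {c a : α} (hac : a ≠ c) (g : FreeGroup α) :
    pt c g ∈ LimitSet (FreeGroup α) (ZZ c) := by
  have hinj : Function.Injective (fun n : ℕ => g * (of a : FreeGroup α) ^ n) := by
    intro i j hij
    exact pow_injective a (mul_left_cancel hij)
  obtain ⟨b, φ, hφ, hb⟩ := SeqCompactSpace.tendsto_subseq
    (fun n => (pt c (g * of a ^ n)⁻¹ : ZZ c))
  refine ⟨fun n => g * of a ^ (φ n), b, hinj.comp hφ.injective, ?_⟩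
  refine convergesOff _ (hinj.comp hφ.injective) ?_ hb
  have e : (fun n => pt c (g * of a ^ (φ n))) = fun _ => pt c g := by
    funext n
    exact pt_mul_pow hac g _
  show Tendsto (fun n => pt c (g * of a ^ (φ n))) atTop (𝓝 (pt c g))
  rw [e]
  exact tendsto_const_nhds

/-- the vertex `A` is not conical -/
lemma not_conical {c a : α} (hac : a ≠ c) : ¬ IsConicalPt (FreeGroup α) (pt c 1) := by
  rintro ⟨γ, p, q, hpq, h1, h2⟩
  have n1 : pt c (of c) ≠ pt c 1 := by
    intro h
    have := congrFun (congrArg Subtype.val h) 1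
    change sd c (1⁻¹ * of c) = sd c (1⁻¹ * 1) at this
    rw [inv_one, one_mul, one_mul, sd_of_self, sd_one] at this
    exact absurd this (by simp)
  have n2 : pt c (of a * of c) ≠ pt c 1 := by
    intro h
    have := congrFun (congrArg Subtype.val h) (of a)
    change sd c ((of a)⁻¹ * (of a * of c)) = sd c ((of a)⁻¹ * 1) at this
    rw [inv_mul_cancel_left, mul_one, sd_of_self, sd_inv_of] at this
    exact absurd this (by simp)
  obtain ⟨f, hf⟩ : ∃ f, p.1 f ≠ q.1 f := by
    by_contra hcon
    push Not at hcon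
    exact hpq (Subtype.ext (funext hcon))
  obtain ⟨n, a1, a2, a3⟩ := ((tendsto_iff.1 h1 f).and ((tendsto_iff.1 (h2 _ n1) f).and
    (tendsto_iff.1 (h2 _ n2) f))).exists
  rw [smul_apply] at a1 a2 a3
  set v := (γ n)⁻¹ * f with hv
  change sd c (v⁻¹ * 1) = _ at a1
  change sd c (v⁻¹ * of c) = _ at a2
  change sd c (v⁻¹ * (of a * of c)) = _ at a3
  rw [mul_one] at a1
  have hv1 : v = 1 := by
    apply sep_c c
    rw [a1, a2]
    exact hf.symm
  rw [hv1, inv_one] at a1 a3
  rw [one_mul] at a3
  apply hf
  rw [← a1, ← a3, sd_one]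
  symm
  have : (of a * of c : FreeGroup α).toWord = [(a, true), (c, true)] := by
    rw [toWord_mul, toWord_of, toWord_of]
    apply IsReduced.reduce_eq
    unfold FreeGroup.IsReduced
    simp
  unfold sd
  rw [this]
  simp [hac]

lemma pt_mem_nonConical [Finite α] {c a : α} (hac : a ≠ c) :
    pt c 1 ∈ NonConical (FreeGroup α) (ZZ c) :=
  ⟨pt_mem_limitSet hac 1, not_conical hac⟩

/-- the vertices `c ^ n A` are pairwise different -/
lemma pt_pow_injective (c : α) : Function.Injective (fun n : ℕ => pt c (of c ^ n)) := by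
  intro i j hij
  by_contra hne
  wlog h : i < j generalizing i j
  · exact this hij.symm (Ne.symm hne) (by omega)
  have h1 := congrFun (congrArg Subtype.val hij) (of c ^ i)
  change sd c ((of c ^ i)⁻¹ * of c ^ i) = sd c ((of c ^ i)⁻¹ * of c ^ j) at h1
  obtain ⟨k, rfl⟩ := Nat.exists_eq_add_of_lt h
  have e : (of c ^ i)⁻¹ * of c ^ (i + k + 1) = (of c ^ (k + 1) : FreeGroup α) := by
    rw [add_assoc, pow_add, inv_mul_cancel_left]
  rw [inv_mul_cancel, sd_one, e] at h1
  unfold sd at h1
  rw [toWord_of_pow, List.replicate_succ] at h1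
  simp at h1

/-- The action of `FreeGroup α` on `ZZ c` is non-elementary: its limit set is infinite. -/
lemma limitSet_infinite [Finite α] {c a : α} (hac : a ≠ c) :
    (LimitSet (FreeGroup α) (ZZ c)).Infinite :=
  (Set.infinite_range_of_injective (pt_pow_injective c)).mono (by
    rintro _ ⟨n, rfl⟩
    exact pt_mem_limitSet hac _)

end Pool.Agent.H204.BB
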