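import Mathlib
import Pool.Agent.H204.BB.Space
import Pool.Agent.R639.CT.Tree

/-!
# The Cannon-Thurston map onto the Bowditch boundary
-/

set_option autoImplicit false
set_option linter.unusedSectionVars false

namespace Pool.Agent.H204.BB

open FreeGroup Filter Topology Pool.Agent.R639.CT Pool.Agent.H322R3.Hyp

variable {α : Type} [DecidableEq α]

/-- the standard generating set -/
abbrev gens (α : Type) : Set (FreeGroup α) := Set.range FreeGroup.of

lemma hyp0 (x y z : FreeGroup α) : min (gprod (gens α) 1 x y) (gprod (gens α) 1 y z) - 0 ≤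
    gprod (gens α) 1 x z := hyp_free x y z

/-- sequences that converge to the same boundary point are eventually on the same side of each
edge -/
lemma side_eq (c : α) {x y : ℕ → FreeGroup α} {ξ : Boundary (gens α)}
    (hx : ConvTo (gens α) x ξ) (hy : ConvTo (gens α) y ξ) (h : FreeGroup α) :
    ∃ N : ℕ, ∀ i j, N ≤ i → N ≤ j → sd c (h⁻¹ * x i) = sd c (h⁻¹ * y j) := by
  obtain ⟨N, hN⟩ := hx.tendsto closure_free le_rfl hyp0 hy (FreeGroup.norm h + 1)
  refine ⟨N, fun i j hi hj => ?_⟩
  by_contra hne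
  have h1 := sep_gprod c hne
  have h2 := hN i j hi hj
  linarith

open Classical in
/-- the side of the edge `h` on which the tail of the sequence `x` lies -/
noncomputable def endSide (c : α) (x : ℕ → FreeGroup α) (h : FreeGroup α) : Bool :=
  if ∀ᶠ n in atTop, sd c (h⁻¹ * x n) = true then true else false

lemma endSide_spec (c : α) {x y : ℕ → FreeGroup α} {ξ : Boundary (gens α)}
    (hx : ConvTo (gens α) x ξ) (hy : ConvTo (gens α) y ξ) (h : FreeGroup α) :
    ∀ᶠ n in atTop, sd c (h⁻¹ * y n) = endSide c x h := by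
  obtain ⟨N, hN⟩ := side_eq c hx hy h
  filter_upwards [eventually_ge_atTop N] with n hn
  unfold endSide
  cases hs : sd c (h⁻¹ * y n) with
  | true =>
    rw [if_pos]
    filter_upwards [eventually_ge_atTop N] with m hm
    rw [hN m n hm hn, hs]
  | false =>
    rw [if_neg]
    intro hcon
    obtain ⟨m, hm1, hm2⟩ := (hcon.and (eventually_ge_atTop N)).exists
    rw [hN m n hm2 hn, hs] at hm1
    exact absurd hm1 (by simp)

lemma endSide_mem (c : α) {x : ℕ → FreeGroup α} {ξ : Boundary (gens α)}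
    (hx : ConvTo (gens α) x ξ) : endSide c x ∈ ZSet c := by
  have h1 : Tendsto (fun n => vtx c (x n)) atTop (𝓝 (endSide c x)) := by
    rw [tendsto_pi_nhds]
    intro h
    have := endSide_spec c hx hx h
    exact tendsto_const_nhds.congr' (this.mono fun n hn => hn.symm)
  exact mem_closure_of_tendsto h1 (Filter.Eventually.of_forall fun n => ⟨x n, rfl⟩)

/-- a sequence that represents a boundary point -/
noncomputable def rp (ξ : Boundary (gens α)) : InfSeq (gens α) := (Quot.exists_rep ξ).choose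

lemma bmk_rp (ξ : Boundary (gens α)) : bmk (gens α) (rp ξ) = ξ := (Quot.exists_rep ξ).choose_spec

lemma convTo_rp (ξ : Boundary (gens α)) : ConvTo (gens α) (rp ξ).1 ξ := ⟨rp ξ, rfl, bmk_rp ξ⟩

/-- The Cannon-Thurston map. -/
noncomputable def ctMap (c : α) (ξ : Boundary (gens α)) : ZZ c :=
  ⟨endSide c (rp ξ).1, endSide_mem c (convTo_rp ξ)⟩

lemma ctMap_spec (c : α) {x : ℕ → FreeGroup α} {ξ : Boundary (gens α)}
    (hx : ConvTo (gens α) x ξ) (h : FreeGroup α) :
    ∀ᶠ n in atTop, sd c (h⁻¹ * x n) = (ctMap c ξ).1 h :=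
  endSide_spec c (convTo_rp ξ) hx h

/-- if `x n → ξ` then `x n • A → f ξ` -/
lemma ctMap_tendsto (c : α) {x : ℕ → FreeGroup α} {ξ : Boundary (gens α)}
    (hx : ConvTo (gens α) x ξ) :
    Tendsto (fun n => x n • pt c 1) atTop (𝓝 (ctMap c ξ)) := by
  rw [tendsto_iff]
  intro h
  filter_upwards [ctMap_spec c hx h] with n hn
  rw [smul_pt, mul_one]
  exact hn

lemma ctMap_continuous (c : α) : Continuous (ctMap c) := by
  rw [continuous_def]
  intro V hV ξ hξ
  obtain ⟨I, hI⟩ := exists_basic (hV.mem_nhds hξ)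
  obtain ⟨B, hB⟩ : ∃ B : ℕ, ∀ h ∈ I, FreeGroup.norm h ≤ B := by
    refine ⟨I.sup FreeGroup.norm, fun h hh => Finset.le_sup (f := FreeGroup.norm) hh⟩
  refine ⟨B + 1, ?_⟩
  rintro η ⟨x, y, hx, hy, N, hN⟩
  show ctMap c η ∈ V
  apply hI
  intro h hh
  obtain ⟨n, h1, h2, h3⟩ := ((ctMap_spec c ⟨x, rfl, hx⟩ h).and ((ctMap_spec c ⟨y, rfl, hy⟩ h).and
    (eventually_ge_atTop N))).exists
  rw [← h1, ← h2]
  by_contra hne
  have h4 := sep_gprod c (Ne.symm hne)
  have h5 := hN n n h3 h3
  have h6 : (FreeGroup.norm h : ℝ) ≤ B := by exact_mod_cast hB h hh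
  linarith

lemma ctMap_equivariant (c : α) (g : FreeGroup α) (ξ : Boundary (gens α)) :
    ctMap c (bsmul closure_free g ξ) = g • ctMap c ξ := by
  apply Subtype.ext
  funext h
  rw [smul_apply]
  have h0 : ConvTo (gens α) (fun n => g * (rp ξ).1 n) (bsmul closure_free g ξ) := by
    refine ⟨translate closure_free g (rp ξ), rfl, ?_⟩
    conv_rhs => rw [← bmk_rp ξ]
    rfl
  obtain ⟨n, h1, h2⟩ := ((ctMap_spec c h0 h).and (ctMap_spec c (convTo_rp ξ) (g⁻¹ * h))).exists
  rw [← h1, ← h2]
  congr 1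
  group

/-- limits of elements of `A` are mapped to the vertex `A` -/
lemma ctMap_eq_pt (c : α) {x : ℕ → FreeGroup α} {ξ : Boundary (gens α)}
    (hx : ConvTo (gens α) x ξ) (hA : ∀ n, pt c (x n) = pt c 1) : ctMap c ξ = pt c 1 := by
  have h1 := ctMap_tendsto c hx
  have e : (fun n => x n • pt c 1) = fun _ => pt c 1 := by
    funext n
    rw [smul_pt, mul_one, hA]
  rw [e] at h1
  exact tendsto_nhds_unique h1 tendsto_const_nhds

end Pool.Agent.H204.BB
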