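import Mathlib
import Pool.Agent.H204.BB.CT

/-!
# Positive words and the dimension of the boundary of a free factor
-/

set_option autoImplicit false
set_option linter.unusedSectionVars false

namespace Pool.Agent.H204.BB

open FreeGroup Filter Topology Pool.Agent.R639.CT Pool.Agent.H322R3.Hyp

variable {α : Type} [DecidableEq α]

lemma isReduced_pos (l : List (α × Bool)) (h : ∀ x ∈ l, x.2 = true) : IsReduced l := by
  induction l with
  | nil => exact List.isChain_nil
  | cons a l ih =>
    cases l with
    | nil => exact List.isChain_singleton a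
    | cons b l =>
      have h1 : IsReduced (b :: l) := ih (fun x hx => h x (List.mem_cons_of_mem _ hx))
      unfold FreeGroup.IsReduced at h1 ⊢
      rw [List.isChain_cons_cons]
      refine ⟨fun _ => ?_, h1⟩
      rw [h a List.mem_cons_self, h b (List.mem_cons_of_mem _ List.mem_cons_self)]

/-- the positive word with the letters `lt (d i)`, `k ≤ i < k + n` -/
def pos (lt : Fin 2 → α) (d : ℕ → Fin 2) (k n : ℕ) : FreeGroup α :=
  FreeGroup.mk ((List.range n).map (fun i => (lt (d (k + i)), true)))

lemma toWord_pos (lt : Fin 2 → α) (d : ℕ → Fin 2) (k n : ℕ) :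
    (pos lt d k n).toWord = (List.range n).map (fun i => (lt (d (k + i)), true)) := by
  unfold pos
  rw [toWord_mk]
  apply IsReduced.reduce_eq
  apply isReduced_pos
  intro x hx
  obtain ⟨i, -, rfl⟩ := List.mem_map.1 hx
  rfl

lemma norm_pos' (lt : Fin 2 → α) (d : ℕ → Fin 2) (k n : ℕ) :
    FreeGroup.norm (pos lt d k n) = n := by
  unfold FreeGroup.norm
  rw [toWord_pos]
  simp

lemma pos_add (lt : Fin 2 → α) (d : ℕ → Fin 2) (k m n : ℕ) :
    pos lt d k (m + n) = pos lt d k m * pos lt d (k + m) n := by
  unfold pos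
  rw [mul_mk, List.range_add, List.map_append, List.map_map]
  congr 2
  apply List.map_congr_left
  intro i _
  simp [Function.comp, add_assoc]

lemma pos_congr (lt : Fin 2 → α) {d d' : ℕ → Fin 2} {k n : ℕ}
    (h : ∀ i, k ≤ i → i < k + n → d i = d' i) : pos lt d k n = pos lt d' k n := by
  unfold pos
  congr 1
  apply List.map_congr_left
  intro i hi
  rw [List.mem_range] at hi
  rw [h (k + i) (by omega) (by omega)]

lemma head_pos (lt : Fin 2 → α) (d : ℕ → Fin 2) (k n : ℕ) :
    (pos lt d k (n + 1)).toWord.head? = some (lt (d k), true) := by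
  rw [toWord_pos, List.range_succ_eq_map]
  simp

/-- distance between elements with branching at `p` -/
lemma norm_branch {u v : FreeGroup α} (h : v.toWord.head? ≠ u.toWord.head?) :
    FreeGroup.norm (u⁻¹ * v) = FreeGroup.norm u + FreeGroup.norm v := by
  unfold FreeGroup.norm
  rw [toWord_inv_mul h, List.length_append, toWord_inv, invRev_length]

lemma gprod_branch (p : FreeGroup α) {u v : FreeGroup α} (h : v.toWord.head? ≠ u.toWord.head?) :
    gprod (gens α) 1 (p * u) (p * v) ≤ FreeGroup.norm p := by
  rw [gprod_one closure_free, wlen_free, wlen_free, wlen_free]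
  have e : (p * u)⁻¹ * (p * v) = u⁻¹ * v := by group
  rw [e]
  have h1 := norm_branch h
  have h2 := FreeGroup.norm_mul_le p u
  have h3 := FreeGroup.norm_mul_le p v
  have h4 : ((p * u).toWord.length : ℝ) ≤ FreeGroup.norm p + FreeGroup.norm u := by
    exact_mod_cast h2
  have h5 : ((p * v).toWord.length : ℝ) ≤ FreeGroup.norm p + FreeGroup.norm v := by
    exact_mod_cast h3
  have h6 : ((u⁻¹ * v).toWord.length : ℝ) = FreeGroup.norm u + FreeGroup.norm v := by
    exact_mod_cast h1
  linarith

lemma gprod_prefix (p u : FreeGroup α) (h : FreeGroup.norm (p * u) = FreeGroup.norm p +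
    FreeGroup.norm u) : gprod (gens α) 1 p (p * u) = FreeGroup.norm p := by
  rw [gprod_one closure_free, wlen_free, wlen_free, wlen_free]
  have e : p⁻¹ * (p * u) = u := by group
  rw [e]
  have h1 : ((p * u).toWord.length : ℝ) = p.toWord.length + u.toWord.length := by
    exact_mod_cast h
  unfold FreeGroup.norm
  linarith

lemma gprod_pos (lt : Fin 2 → α) (d : ℕ → Fin 2) {i j : ℕ} (hij : i ≤ j) :
    gprod (gens α) 1 (pos lt d 0 i) (pos lt d 0 j) = i := by
  obtain ⟨n, rfl⟩ := Nat.exists_eq_add_of_le hij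
  rw [pos_add]
  rw [gprod_prefix, norm_pos']
  rw [← pos_add, norm_pos', norm_pos', norm_pos']

lemma convInf_pos (lt : Fin 2 → α) (d : ℕ → Fin 2) :
    ConvInf (gens α) (fun n => pos lt d 0 n) := by
  unfold ConvInf
  rw [tendsto_pair_iff (fun i j => gprod (gens α) 1 (pos lt d 0 i) (pos lt d 0 j))]
  intro M
  obtain ⟨N, hN⟩ := exists_nat_ge M
  refine ⟨N, fun i j hi hj => ?_⟩
  rcases le_total i j with h | h
  · rw [gprod_pos lt d h]
    exact hN.trans (by exact_mod_cast hi)
  · rw [gprod_symm closure_free, gprod_pos lt d h]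
    exact hN.trans (by exact_mod_cast hj)

/-- the limit of the positive words with the letters `lt (d i)` -/
def pend (lt : Fin 2 → α) (d : ℕ → Fin 2) : Boundary (gens α) :=
  bmk (gens α) ⟨fun n => pos lt d 0 n, convInf_pos lt d⟩

lemma convTo_pend (lt : Fin 2 → α) (d : ℕ → Fin 2) :
    ConvTo (gens α) (fun n => pos lt d 0 n) (pend lt d) :=
  ⟨⟨fun n => pos lt d 0 n, convInf_pos lt d⟩, rfl, rfl⟩

/-- the structure of two positive words which differ first at the place `k` -/
lemma pos_branch {lt : Fin 2 → α} (hlt : Function.Injective lt) {d d' : ℕ → Fin 2} {k : ℕ}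
    (hk : ∀ i, i < k → d i = d' i) (hne : d k ≠ d' k) {i j : ℕ} (hi : k < i) (hj : k < j) :
    ∃ u v : FreeGroup α, v.toWord.head? ≠ u.toWord.head? ∧
      pos lt d 0 i = pos lt d 0 k * u ∧ pos lt d' 0 j = pos lt d 0 k * v := by
  obtain ⟨i', rfl⟩ := Nat.exists_eq_add_of_lt hi
  obtain ⟨j', rfl⟩ := Nat.exists_eq_add_of_lt hj
  refine ⟨pos lt d k (i' + 1), pos lt d' k (j' + 1), ?_, ?_, ?_⟩
  · rw [head_pos, head_pos]
    intro h
    apply hne
    apply hlt
    simpa using h.symm
  · rw [add_assoc, pos_add, zero_add]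
  · rw [add_assoc, pos_add, zero_add]
    congr 1
    exact pos_congr lt (fun i _ hi => (hk i (by omega)).symm)

lemma exists_first {d d' : ℕ → Fin 2} (h : d ≠ d') :
    ∃ k, (∀ i, i < k → d i = d' i) ∧ d k ≠ d' k := by
  classical
  have hex : ∃ k, d k ≠ d' k := by
    by_contra hcon
    push Not at hcon
    exact h (funext hcon)
  refine ⟨Nat.find hex, fun i hi => ?_, Nat.find_spec hex⟩
  have := Nat.find_min hex hi
  push Not at this
  exact this

lemma pend_injective {lt : Fin 2 → α} (hlt : Function.Injective lt) :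
    Function.Injective (pend lt) := by
  intro d d' h
  by_contra hne
  obtain ⟨k, hk1, hk2⟩ := exists_first hne
  have h1 := convTo_pend lt d
  have h2 := convTo_pend lt d'
  rw [← h] at h2
  obtain ⟨N, hN⟩ := h1.tendsto closure_free le_rfl hyp0 h2 (k + 1)
  have h3 := hN (N + k + 1) (N + k + 1) (by omega) (by omega)
  obtain ⟨u, v, huv, e1, e2⟩ := pos_branch hlt hk1 hk2 (i := N + k + 1) (j := N + k + 1)
    (by omega) (by omega)
  rw [e1, e2] at h3
  have h4 := gprod_branch (pos lt d 0 k) huv
  rw [norm_pos'] at h4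
  linarith

/-- the limits of positive words in the letters of `A` are mapped to the vertex `A` -/
lemma ctMap_pend (c : α) (lt : Fin 2 → α) (hc : ∀ i, lt i ≠ c) (d : ℕ → Fin 2) :
    ctMap c (pend lt d) = pt c 1 := by
  apply ctMap_eq_pt c (convTo_pend lt d)
  intro n
  show pt c (pos lt d 0 n) = pt c 1
  induction n with
  | zero =>
    congr 1
  | succ n ih =>
    rw [pos_add]
    have e : pos lt d (0 + n) 1 = of (lt (d n)) := by
      unfold pos
      simp [of]
    rw [e, pt_mul_ne (hc _), ih]

end Pool.Agent.H204.BB
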