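import Mathlib
import Pool.Agent.H204.BB.Pos

/-!
# The Cayley tree of a free group, as a geodesic metric space

The point at distance `t` from `1` on the geodesic from `1` to `g` is represented by its distance
function on the vertices.
-/

set_option autoImplicit false
set_option linter.unusedSectionVars false

namespace Pool.Agent.H204.BB

open FreeGroup Filter Topology Pool.Agent.R639.CT Pool.Agent.H322R3.Hyp

variable {α : Type} [DecidableEq α]

/-- the Gromov product at `1` -/
def pp (g h : FreeGroup α) : ℝ := lcp g.toWord h.toWord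

/-- the norm -/
def nn (g : FreeGroup α) : ℝ := FreeGroup.norm g

lemma pp_eq (g h : FreeGroup α) : gprod (gens α) 1 g h = pp g h := gprod_free g h

lemma pp_symm (g h : FreeGroup α) : pp g h = pp h g := by
  rw [← pp_eq, ← pp_eq, gprod_symm closure_free]

lemma pp_ultra (g h k : FreeGroup α) : min (pp g h) (pp h k) ≤ pp g k := by
  unfold pp
  exact_mod_cast lcp_ultra g.toWord h.toWord k.toWord

lemma pp_nonneg (g h : FreeGroup α) : 0 ≤ pp g h := Nat.cast_nonneg _

lemma pp_le_left (g h : FreeGroup α) : pp g h ≤ nn g := by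
  unfold pp nn FreeGroup.norm
  exact_mod_cast lcp_le_left _ _

lemma pp_le_right (g h : FreeGroup α) : pp g h ≤ nn h := by
  rw [pp_symm]
  exact pp_le_left h g

lemma nn_nonneg (g : FreeGroup α) : 0 ≤ nn g := Nat.cast_nonneg _

lemma nn_one : nn (1 : FreeGroup α) = 0 := by
  unfold nn
  simp

lemma nn_inv_mul (g h : FreeGroup α) : nn (g⁻¹ * h) = nn g + nn h - 2 * pp g h := by
  have h1 := pp_eq g h
  rw [gprod_one closure_free, wlen_free, wlen_free, wlen_free] at h1
  unfold nn FreeGroup.norm
  linarith

lemma pp_self (g : FreeGroup α) : pp g g = nn g := by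
  have := nn_inv_mul g g
  rw [inv_mul_cancel, nn_one] at this
  linarith

lemma pp_one_left (g : FreeGroup α) : pp 1 g = 0 := by
  have h1 := pp_le_left 1 g
  rw [nn_one] at h1
  linarith [pp_nonneg 1 g]

lemma pp_one_right (g : FreeGroup α) : pp g 1 = 0 := by rw [pp_symm, pp_one_left]

/-- the distance function of the point at distance `t` from `1` on the geodesic from `1` to `g` -/
noncomputable def rt (g : FreeGroup α) (t : ℝ) : FreeGroup α → ℝ :=
  fun x => t + nn x - 2 * min t (pp g x)

variable (α) in
/-- The Cayley tree of the free group on `α`: each point is represented by its distance function on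
the vertices. -/
def CTree : Type := {φ : FreeGroup α → ℝ // ∃ (g : FreeGroup α) (t : ℝ), 0 ≤ t ∧ t ≤ nn g ∧
  φ = rt g t}

/-- the point at distance `t` from `1` on the geodesic from `1` to `g` -/
noncomputable def mkP (g : FreeGroup α) (t : ℝ) (h0 : 0 ≤ t) (h1 : t ≤ nn g) : CTree α :=
  ⟨rt g t, g, t, h0, h1, rfl⟩

/-- the distance of two points -/
noncomputable def dd (φ ψ : FreeGroup α → ℝ) : ℝ := ⨆ x, |φ x - ψ x|

lemma rt_sub_le (g h : FreeGroup α) (t s : ℝ) (x : FreeGroup α) :
    rt g t x - rt h s x ≤ t + s - 2 * min (min t s) (pp g h) := by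
  unfold rt
  have key : min s (pp h x) + min (min t s) (pp g h) ≤ s + min t (pp g x) := by
    have u := pp_ultra g h x
    rcases min_le_iff.1 u with u | u
    · rcases le_total t (pp g x) with c | c
      · rw [min_eq_left c]
        exact add_le_add (min_le_left _ _) ((min_le_left _ _).trans (min_le_left _ _))
      · rw [min_eq_right c]
        exact add_le_add (min_le_left _ _) ((min_le_right _ _).trans u)
    · rcases le_total t (pp g x) with c | c
      · rw [min_eq_left c]
        exact add_le_add (min_le_left _ _) ((min_le_left _ _).trans (min_le_left _ _))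
      · rw [min_eq_right c, add_comm]
        exact add_le_add ((min_le_left _ _).trans (min_le_right _ _)) ((min_le_right _ _).trans u)
  linarith

lemma abs_rt_sub_le (g h : FreeGroup α) (t s : ℝ) (x : FreeGroup α) :
    |rt g t x - rt h s x| ≤ t + s - 2 * min (min t s) (pp g h) := by
  rw [abs_le]
  constructor
  · have := rt_sub_le h g s t x
    rw [min_comm s t, pp_symm h g] at this
    linarith
  · exact rt_sub_le g h t s x

lemma bdd_rt (g h : FreeGroup α) (t s : ℝ) :
    BddAbove (Set.range fun x => |rt g t x - rt h s x|) := by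
  refine ⟨t + s - 2 * min (min t s) (pp g h), ?_⟩
  rintro _ ⟨x, rfl⟩
  exact abs_rt_sub_le g h t s x

/-- the formula for the distance -/
lemma dd_rt (g h : FreeGroup α) {t s : ℝ} (ht : 0 ≤ t) (ht' : t ≤ nn g) (hs : 0 ≤ s)
    (hs' : s ≤ nn h) : dd (rt g t) (rt h s) = t + s - 2 * min (min t s) (pp g h) := by
  apply le_antisymm
  · exact ciSup_le fun x => abs_rt_sub_le g h t s x
  · rcases le_total s (min t (pp g h)) with c | c
    · -- `s` is the minimum: use `x = 1`
      refine le_trans ?_ (le_ciSup (bdd_rt g h t s) 1)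
      have e1 : rt g t 1 = t := by
        unfold rt
        rw [nn_one, pp_one_right, min_eq_right ht]
        ring
      have e2 : rt h s 1 = s := by
        unfold rt
        rw [nn_one, pp_one_right, min_eq_right hs]
        ring
      simp only [e1, e2]
      have : min (min t s) (pp g h) = s := by
        rw [min_eq_right (c.trans (min_le_left _ _)), min_eq_left (c.trans (min_le_right _ _))]
      rw [this]
      have := le_abs_self (t - s)
      linarith
    · -- use `x = h`
      refine le_trans ?_ (le_ciSup (bdd_rt g h t s) h)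
      have e1 : rt g t h = t + nn h - 2 * min t (pp g h) := rfl
      have e2 : rt h s h = nn h - s := by
        unfold rt
        rw [pp_self, min_eq_left hs']
        ring
      simp only [e1, e2]
      have : min (min t s) (pp g h) = min t (pp g h) := by
        rw [min_right_comm]
        exact min_eq_left c
      rw [this]
      have := le_abs_self (t + nn h - 2 * min t (pp g h) - (nn h - s))
      linarith

lemma bdd_pts (φ ψ : CTree α) : BddAbove (Set.range fun x => |φ.1 x - ψ.1 x|) := by
  obtain ⟨_, g, t, ht, ht', rfl⟩ := φ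
  obtain ⟨_, h, s, hs, hs', rfl⟩ := ψ
  exact bdd_rt g h t s

noncomputable instance : MetricSpace (CTree α) where
  dist φ ψ := dd φ.1 ψ.1
  dist_self φ := by
    show dd φ.1 φ.1 = 0
    unfold dd
    simp
  dist_comm φ ψ := by
    show dd φ.1 ψ.1 = dd ψ.1 φ.1
    unfold dd
    congr 1
    funext x
    rw [abs_sub_comm]
  dist_triangle φ ψ χ := by
    show dd φ.1 χ.1 ≤ dd φ.1 ψ.1 + dd ψ.1 χ.1
    apply ciSup_le
    intro x
    have h1 := le_ciSup (bdd_pts φ ψ) x
    have h2 := le_ciSup (bdd_pts ψ χ) x
    have h3 := abs_sub_le (φ.1 x) (ψ.1 x) (χ.1 x)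
    unfold dd
    linarith
  eq_of_dist_eq_zero := by
    intro φ ψ h
    change dd φ.1 ψ.1 = 0 at h
    apply Subtype.ext
    funext x
    have h1 := le_ciSup (bdd_pts φ ψ) x
    change |φ.1 x - ψ.1 x| ≤ dd φ.1 ψ.1 at h1
    rw [h] at h1
    have := abs_nonneg (φ.1 x - ψ.1 x)
    have h2 : φ.1 x - ψ.1 x = 0 := abs_eq_zero.1 (le_antisymm h1 this)
    linarith

lemma dist_mkP (g h : FreeGroup α) {t s : ℝ} (ht : 0 ≤ t) (ht' : t ≤ nn g) (hs : 0 ≤ s)
    (hs' : s ≤ nn h) :
    dist (mkP g t ht ht') (mkP h s hs hs') = t + s - 2 * min (min t s) (pp g h) :=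
  dd_rt g h ht ht' hs hs'

/-- the root, i.e. the vertex `1` -/
noncomputable def oo : CTree α := mkP 1 0 le_rfl (nn_nonneg 1)

lemma exists_mkP (φ : CTree α) : ∃ (g : FreeGroup α) (t : ℝ) (h0 : 0 ≤ t) (h1 : t ≤ nn g),
    φ = mkP g t h0 h1 := by
  obtain ⟨_, g, t, ht, ht', rfl⟩ := φ
  exact ⟨g, t, ht, ht', rfl⟩

lemma dist_oo (g : FreeGroup α) {t : ℝ} (ht : 0 ≤ t) (ht' : t ≤ nn g) :
    dist (mkP g t ht ht') oo = t := by
  unfold oo
  rw [dist_mkP, pp_one_right, min_eq_right ht, min_self]
  ring

lemma gromovProd_oo (g h : FreeGroup α) {t s : ℝ} (ht : 0 ≤ t) (ht' : t ≤ nn g) (hs : 0 ≤ s)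
    (hs' : s ≤ nn h) :
    gromovProd oo (mkP g t ht ht') (mkP h s hs hs') = min (min t s) (pp g h) := by
  unfold gromovProd
  rw [dist_oo, dist_oo, dist_mkP]
  ring

lemma four_point_oo (x y z : CTree α) :
    min (gromovProd oo x y) (gromovProd oo y z) ≤ gromovProd oo x z := by
  obtain ⟨g, t, ht, ht', rfl⟩ := exists_mkP x
  obtain ⟨h, s, hs, hs', rfl⟩ := exists_mkP y
  obtain ⟨k, r, hr, hr', rfl⟩ := exists_mkP z
  rw [gromovProd_oo, gromovProd_oo, gromovProd_oo]
  refine le_min (le_min ?_ ?_) ?_
  · exact (min_le_left _ _).trans ((min_le_left _ _).trans (min_le_left _ _))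
  · exact (min_le_right _ _).trans ((min_le_left _ _).trans (min_le_right _ _))
  · exact (min_le_min (min_le_right _ _) (min_le_right _ _)).trans (pp_ultra g h k)

/-- the four point condition with constant `0` does not depend on the base point -/
lemma four_point_all {Y : Type*} [MetricSpace Y] (o : Y)
    (h : ∀ x y z : Y, min (gromovProd o x y) (gromovProd o y z) ≤ gromovProd o x z)
    (w x y z : Y) : min (gromovProd w x y) (gromovProd w y z) ≤ gromovProd w x z := by
  have e : ∀ u v : Y, gromovProd w u v =
      dist w o - gromovProd o u w - gromovProd o v w + gromovProd o u v := by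
    intro u v
    unfold gromovProd
    ring
  have s : ∀ u v : Y, gromovProd o u v = gromovProd o v u := fun u v => gromovProd_symm _ _ _
  rw [e x y, e y z, e x z]
  have a1 := h x y z
  have a2 := h x w z
  have a3 := h y x w
  have a4 := h y z w
  rw [s w z] at a2
  rw [s y x] at a3
  rw [min_le_iff] at a1 a2 a3 a4 ⊢
  rcases a1 with a1 | a1 <;> rcases a2 with a2 | a2 <;> rcases a3 with a3 | a3 <;>
    rcases a4 with a4 | a4 <;>
    first
      | (left; linarith)
      | (right; linarith)
      | (rcases le_total (gromovProd o x y + gromovProd o z w)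
          (gromovProd o y z + gromovProd o x w) with q | q
         · left; linarith
         · right; linarith)

lemma mkP_eq (g h : FreeGroup α) {t : ℝ} (ht : 0 ≤ t) (ht' : t ≤ nn g) (ht2 : t ≤ nn h)
    (hp : t ≤ pp g h) : mkP g t ht ht' = mkP h t ht ht2 := by
  rw [← dist_eq_zero, dist_mkP, min_self, min_eq_left hp]
  ring

/-- clamped version of `mkP` -/
noncomputable def cl (g : FreeGroup α) (t : ℝ) : CTree α :=
  mkP g (max 0 (min t (nn g))) (le_max_left _ _) (max_le (nn_nonneg g) (min_le_right _ _))

lemma mkP_congr (g : FreeGroup α) {t s : ℝ} (ht : 0 ≤ t) (ht' : t ≤ nn g) (hs : 0 ≤ s)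
    (hs' : s ≤ nn g) (h : t = s) : mkP g t ht ht' = mkP g s hs hs' := by
  subst h
  rfl

lemma cl_eq (g : FreeGroup α) {t : ℝ} (ht : 0 ≤ t) (ht' : t ≤ nn g) : cl g t = mkP g t ht ht' := by
  unfold cl
  apply mkP_congr
  rw [min_eq_left ht', max_eq_right ht]

lemma geodesic_aux (g h : FreeGroup α) {t s : ℝ} (ht : 0 ≤ t) (ht' : t ≤ nn g) (hs : 0 ≤ s)
    (hs' : s ≤ nn h) :
    ∃ c : ℝ → CTree α, c 0 = mkP g t ht ht' ∧
      c (dist (mkP g t ht ht') (mkP h s hs hs')) = mkP h s hs hs' ∧
      ∀ u ∈ Set.Icc 0 (dist (mkP g t ht ht') (mkP h s hs hs')),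
      ∀ v ∈ Set.Icc 0 (dist (mkP g t ht ht') (mkP h s hs hs')),
        dist (c u) (c v) = |u - v| := by
  set m := min (min t s) (pp g h) with hm
  have hD : dist (mkP g t ht ht') (mkP h s hs hs') = t + s - 2 * m := dist_mkP g h ht ht' hs hs'
  have hmt : m ≤ t := (min_le_left _ _).trans (min_le_left _ _)
  have hms : m ≤ s := (min_le_left _ _).trans (min_le_right _ _)
  have hmp : m ≤ pp g h := min_le_right _ _
  have hm0 : 0 ≤ m := le_min (le_min ht hs) (pp_nonneg g h)
  rw [hD]
  refine ⟨fun u => if u ≤ t - m then cl g (t - u) else cl h (u - t + 2 * m), ?_, ?_, ?_⟩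
  · simp only
    rw [if_pos (by linarith), cl_eq g (t := t - 0) (by linarith) (by linarith)]
    exact mkP_congr _ _ _ _ _ (by ring)
  · simp only
    by_cases hc : t + s - 2 * m ≤ t - m
    · rw [if_pos hc, cl_eq g (t := t - (t + s - 2 * m)) (by linarith) (by linarith)]
      have hsm : s = m := by linarith
      have e1 : mkP g (t - (t + s - 2 * m)) (by linarith) (by linarith) =
          mkP g s hs (by linarith) := mkP_congr _ _ _ _ _ (by linarith)
      rw [e1]
      exact mkP_eq g h hs _ hs' (by linarith)
    · rw [if_neg hc, cl_eq h (t := t + s - 2 * m - t + 2 * m) (by linarith) (by linarith)]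
      exact mkP_congr _ _ _ _ _ (by ring)
  · -- distances
    have main : ∀ u v : ℝ, 0 ≤ u → u ≤ v → v ≤ t + s - 2 * m →
        dist (if u ≤ t - m then cl g (t - u) else cl h (u - t + 2 * m))
          (if v ≤ t - m then cl g (t - v) else cl h (v - t + 2 * m)) = v - u := by
      intro u v hu huv hv
      by_cases cu : u ≤ t - m
      · rw [if_pos cu, cl_eq g (t := t - u) (by linarith) (by linarith)]
        by_cases cv : v ≤ t - m
        · rw [if_pos cv, cl_eq g (t := t - v) (by linarith) (by linarith), dist_mkP, pp_self,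
            min_eq_right (by linarith : t - v ≤ t - u), min_eq_left (by linarith : t - v ≤ nn g)]
          ring
        · rw [if_neg cv]
          push Not at cv
          rw [cl_eq h (t := v - t + 2 * m) (by linarith) (by linarith), dist_mkP]
          have : min (min (t - u) (v - t + 2 * m)) (pp g h) = m := by
            apply le_antisymm
            · -- `m` is one of `t`, `s`, `pp g h`
              rcases min_choice (min t s) (pp g h) with c | c
              · rcases min_choice t s with c' | c'
                · have : m = t := c.trans c'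
                  refine ((min_le_left _ _).trans (min_le_left _ _)).trans ?_
                  linarith
                · have : m = s := c.trans c'
                  exfalso
                  linarith
              · have : m = pp g h := c
                rw [this]
                exact min_le_right _ _
            · exact le_min (le_min (by linarith) (by linarith)) hmp
          rw [this]
          ring
      · have cv : ¬ v ≤ t - m := by
          intro h
          exact cu (by linarith)
        rw [if_neg cu, if_neg cv]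
        push Not at cu cv
        rw [cl_eq h (t := u - t + 2 * m) (by linarith) (by linarith),
          cl_eq h (t := v - t + 2 * m) (by linarith) (by linarith), dist_mkP, pp_self,
          min_eq_left (by linarith : u - t + 2 * m ≤ v - t + 2 * m),
          min_eq_left (by linarith : u - t + 2 * m ≤ nn h)]
        ring
    intro u hu v hv
    rcases le_total u v with huv | huv
    · rw [main u v hu.1 huv hv.2, abs_sub_comm, abs_of_nonneg (by linarith)]
    · rw [dist_comm, main v u hv.1 huv hu.2, abs_of_nonneg (by linarith)]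

/-- The Cayley tree is an `ℝ`-tree. -/
theorem isTree_cTree : IsTree (CTree α) where
  geodesic x y := by
    obtain ⟨g, t, ht, ht', rfl⟩ := exists_mkP x
    obtain ⟨h, s, hs, hs', rfl⟩ := exists_mkP y
    exact geodesic_aux g h ht ht' hs hs'
  four_point := four_point_all oo four_point_oo

/-- translation of distance functions -/
def tr (k : FreeGroup α) (φ : FreeGroup α → ℝ) : FreeGroup α → ℝ := fun x => φ (k⁻¹ * x)

lemma tr_rt_1 (k g : FreeGroup α) (t : ℝ) (h : t ≤ nn k - pp k (k * g)) :
    tr k (rt g t) = rt k (nn k - t) := by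
  funext x
  unfold tr rt
  have e1 : nn (k⁻¹ * x) = nn k + nn x - 2 * pp k x := nn_inv_mul k x
  have e2 : pp g (k⁻¹ * x) = nn k - pp k (k * g) - pp k x + pp (k * g) x := by
    have a1 := nn_inv_mul g (k⁻¹ * x)
    have a2 : g⁻¹ * (k⁻¹ * x) = (k * g)⁻¹ * x := by group
    rw [a2, nn_inv_mul] at a1
    have a3 := nn_inv_mul k (k * g)
    rw [inv_mul_cancel_left] at a3
    linarith
  rw [e1, e2]
  set z := k * g
  have u1 := pp_ultra k z x
  have u2 := pp_ultra k x z
  have u3 := pp_ultra z k x
  rw [pp_symm x z] at u2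
  rw [pp_symm z k] at u3
  rw [min_def, min_def]
  rw [min_le_iff] at u1 u2 u3
  split_ifs <;> rcases u1 with u1 | u1 <;> rcases u2 with u2 | u2 <;> rcases u3 with u3 | u3 <;>
    linarith

lemma tr_rt_2 (k g : FreeGroup α) (t : ℝ) (h : nn k - pp k (k * g) ≤ t) :
    tr k (rt g t) = rt (k * g) (t - nn k + 2 * pp k (k * g)) := by
  funext x
  unfold tr rt
  have e1 : nn (k⁻¹ * x) = nn k + nn x - 2 * pp k x := nn_inv_mul k x
  have e2 : pp g (k⁻¹ * x) = nn k - pp k (k * g) - pp k x + pp (k * g) x := by
    have a1 := nn_inv_mul g (k⁻¹ * x)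
    have a2 : g⁻¹ * (k⁻¹ * x) = (k * g)⁻¹ * x := by group
    rw [a2, nn_inv_mul] at a1
    have a3 := nn_inv_mul k (k * g)
    rw [inv_mul_cancel_left] at a3
    linarith
  rw [e1, e2]
  set z := k * g
  have u1 := pp_ultra k z x
  have u2 := pp_ultra k x z
  have u3 := pp_ultra z k x
  rw [pp_symm x z] at u2
  rw [pp_symm z k] at u3
  rw [min_def, min_def]
  rw [min_le_iff] at u1 u2 u3
  split_ifs <;> rcases u1 with u1 | u1 <;> rcases u2 with u2 | u2 <;> rcases u3 with u3 | u3 <;>
    linarith

lemma tr_mem (k : FreeGroup α) (φ : CTree α) : ∃ (g : FreeGroup α) (t : ℝ), 0 ≤ t ∧ t ≤ nn g ∧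
    tr k φ.1 = rt g t := by
  obtain ⟨g, t, ht, ht', rfl⟩ := exists_mkP φ
  rcases le_total t (nn k - pp k (k * g)) with h | h
  · refine ⟨k, nn k - t, ?_, by linarith, tr_rt_1 k g t h⟩
    linarith [pp_nonneg k (k * g)]
  · refine ⟨k * g, t - nn k + 2 * pp k (k * g), ?_, ?_, tr_rt_2 k g t h⟩
    · linarith [pp_nonneg k (k * g)]
    · have a3 := nn_inv_mul k (k * g)
      rw [inv_mul_cancel_left] at a3
      linarith

noncomputable instance : MulAction (FreeGroup α) (CTree α) where
  smul k φ := ⟨tr k φ.1, tr_mem k φ⟩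
  one_smul φ := by
    apply Subtype.ext
    funext x
    show φ.1 (1⁻¹ * x) = φ.1 x
    rw [inv_one, one_mul]
  mul_smul k l φ := by
    apply Subtype.ext
    funext x
    show φ.1 ((k * l)⁻¹ * x) = φ.1 (l⁻¹ * (k⁻¹ * x))
    rw [mul_inv_rev, mul_assoc]

lemma dist_smul_cTree (k : FreeGroup α) (φ ψ : CTree α) : dist (k • φ) (k • ψ) = dist φ ψ := by
  show dd (tr k φ.1) (tr k ψ.1) = dd φ.1 ψ.1
  unfold dd tr
  exact (Equiv.mulLeft k⁻¹).iSup_comp (g := fun x => |φ.1 x - ψ.1 x|)

lemma smul_oo (k : FreeGroup α) : k • (oo : CTree α) = mkP k (nn k) (nn_nonneg k) le_rfl := by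
  apply Subtype.ext
  show tr k (rt 1 0) = rt k (nn k)
  rw [tr_rt_1 k 1 0 (by rw [mul_one, pp_self]; linarith)]
  rw [sub_zero]

lemma dist_oo_smul (k : FreeGroup α) : dist (oo : CTree α) (k • oo) = nn k := by
  rw [dist_comm, smul_oo, dist_oo]

/-- The action of the free group on its Cayley tree is geometric. -/
theorem isGeometric_cTree [Finite α] : IsGeometric (FreeGroup α) (CTree α) where
  isometric := dist_smul_cTree
  proper x r := by
    apply (finite_norm (α := α) ⌈r + 2 * dist (oo : CTree α) x⌉₊).subset
    intro k hk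
    have hk : dist x (k • x) ≤ r := hk
    show FreeGroup.norm k ≤ _
    have h1 := dist_triangle4 (oo : CTree α) x (k • x) (k • oo)
    rw [dist_smul_cTree, dist_oo_smul, dist_comm x oo] at h1
    have h2 : (FreeGroup.norm k : ℝ) ≤ r + 2 * dist (oo : CTree α) x := by
      have : nn k = FreeGroup.norm k := rfl
      linarith
    have h3 := h2.trans (Nat.le_ceil _)
    exact_mod_cast h3
  cobounded x := by
    refine ⟨1 + dist (oo : CTree α) x, fun y => ?_⟩
    obtain ⟨g, t, ht, ht', rfl⟩ := exists_mkP y
    set n := ⌊t⌋₊ with hn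
    have hn1 : (n : ℝ) ≤ t := Nat.floor_le ht
    have hn2 : t < n + 1 := Nat.lt_floor_add_one t
    have hng : n ≤ g.toWord.length := by
      have : (n : ℝ) ≤ FreeGroup.norm g := hn1.trans ht'
      exact_mod_cast this
    set h := FreeGroup.mk (g.toWord.take n) with hh
    have hw : h.toWord = g.toWord.take n := toWord_mk_of_take g n
    have hnn : nn h = n := by
      unfold nn FreeGroup.norm
      rw [hw, List.length_take, min_eq_left hng]
    have hpp : pp g h = n := by
      unfold pp
      rw [hw]
      have := lcp_append (g.toWord.take n) (g.toWord.drop n)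
      rw [List.take_append_drop, List.length_take, min_eq_left hng] at this
      rw [this]
    refine ⟨h, ?_⟩
    have h1 : dist (mkP g t ht ht') (h • oo) ≤ 1 := by
      rw [smul_oo, dist_mkP, hnn, hpp, min_eq_right hn1, min_self]
      linarith
    have h2 := dist_triangle (mkP g t ht ht') (h • oo) (h • x)
    rw [dist_smul_cTree] at h2
    linarith

lemma gromovProd_orbit (g h : FreeGroup α) :
    gromovProd (oo : CTree α) (g • oo) (h • oo) = pp g h := by
  rw [smul_oo, smul_oo, gromovProd_oo]
  apply min_eq_right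
  exact le_min (pp_le_left g h) (pp_le_right g h)

end Pool.Agent.H204.BB
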