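import Mathlib
import Pool.Agent.H204.BB.Pos

/-!
# The boundary of a free factor has positive dimension for every visual metric
-/

set_option autoImplicit false
set_option linter.unusedSectionVars false

namespace Pool.Agent.H204.BB

open FreeGroup Filter Topology Pool.Agent.R639.CT Pool.Agent.H322R3.Hyp

variable {α : Type} [DecidableEq α] [Finite α] {X : Type*} [MetricSpace X]
  [MulAction (FreeGroup α) X]

lemma gromovProd_base_le (w p x y : X) : gromovProd w x y ≤ dist w p + gromovProd p x y := by
  unfold gromovProd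
  have h1 := dist_triangle x p w
  have h2 := dist_triangle y p w
  rw [dist_comm p w] at h1 h2
  linarith

/-- The orbit map is Lipschitz. -/
lemma orbit_lip (hG : IsGeometric (FreeGroup α) X) (x₀ : X) :
    ∃ L : ℝ, 0 < L ∧ ∀ g : FreeGroup α, dist x₀ (g • x₀) ≤ L * FreeGroup.norm g := by
  have hTfin : (gens α).Finite := Set.finite_range _
  obtain ⟨C, hC0, hC⟩ := orbit_upper (X := X) closure_free hTfin x₀
  refine ⟨C + 1, by positivity, fun g => ?_⟩
  have key : ∀ l : List (α × Bool), dist x₀ ((FreeGroup.mk l) • x₀) ≤ (C + 1) * l.length := by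
    intro l
    induction l with
    | nil =>
      rw [← one_eq_mk, one_smul, dist_self]
      simp
    | cons x l ih =>
      rw [mk_cons, mul_smul]
      have h1 : dist x₀ (ltr x • x₀) ≤ C := by
        apply hC
        rw [wlen_free, toWord_ltr]
        simp
      have h2 := dist_triangle x₀ (ltr x • x₀) (ltr x • (FreeGroup.mk l) • x₀)
      rw [hG.isometric] at h2
      rw [List.length_cons]
      push_cast
      linarith
  have := key g.toWord
  rwa [mk_toWord] at this

/-- geodesics of the free group are not backtracked in the tree `X` -/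
lemma near_prefix (hX : IsTree X) (hG : IsGeometric (FreeGroup α) X) (x₀ : X) :
    ∃ K : ℝ, ∀ g x : FreeGroup α, g.toWord.length ≤ lcp x.toWord g.toWord →
      gromovProd (g • x₀) x₀ (x • x₀) ≤ K := by
  have hTfin : (gens α).Finite := Set.finite_range _
  obtain ⟨C, hC0, hC⟩ := orbit_upper (X := X) closure_free hTfin x₀
  obtain ⟨κ, hκ, hlow⟩ := milnor_schwarz (T := gens α) closure_free hX.geodesic hG x₀
  refine ⟨C + C * ((4 * C + 2) / κ), fun g x hgx' => ?_⟩
  have htake := take_of_lcp _ _ hgx'
  have hlen : g.toWord.length ≤ x.toWord.length := hgx'.trans (lcp_le_left _ _)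
  set y : ℕ → X := fun i => FreeGroup.mk (x.toWord.take i) • x₀ with hy
  have h0 : y 0 = x₀ := by simp [hy, ← one_eq_mk]
  have hn : y x.toWord.length = x • x₀ := by
    simp only [hy, List.take_length, mk_toWord]
  have hk : y g.toWord.length = g • x₀ := by
    simp only [hy, htake, mk_toWord]
  have hnb := no_backtrack hX.four_point y C κ 2 hC0 hκ (by norm_num) x.toWord.length
    (by
      intro i hi
      simp only [hy]
      rw [dist_smul_smul hG]
      apply hC
      rw [wlen_take x (Nat.le_succ i) hi]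
      omega)
    (by
      intro i j hij hj
      simp only [hy]
      rw [dist_smul_smul hG]
      have := hlow ((FreeGroup.mk (x.toWord.take i))⁻¹ * FreeGroup.mk (x.toWord.take j))
      rw [wlen_take x hij hj, Nat.cast_sub hij] at this
      exact this) g.toWord.length hlen
  rw [h0, hn, hk] at hnb
  exact hnb

/-- The orbit map into `X` increases Gromov products of elements that branch at `p` at most
linearly. -/
lemma orbit_branch (hX : IsTree X) (hG : IsGeometric (FreeGroup α) X) (x₀ : X) :
    ∃ L K : ℝ, 0 < L ∧ ∀ p u v : FreeGroup α, v.toWord.head? ≠ u.toWord.head? →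
      gromovProd x₀ ((p * u) • x₀) ((p * v) • x₀) ≤ L * FreeGroup.norm p + K := by
  obtain ⟨K, hK⟩ := near_prefix hX hG x₀
  obtain ⟨L, hL0, hL⟩ := orbit_lip hG x₀
  refine ⟨L, K, hL0, fun p u v huv => ?_⟩
  have h1 := hK u⁻¹ (u⁻¹ * v) (by
    rw [toWord_inv_mul huv, lcp_append])
  have h2 := gromovProd_base_le x₀ (p • x₀) ((p * u) • x₀) ((p * v) • x₀)
  have h3 := hL p
  have h4 : gromovProd (p • x₀) ((p * u) • x₀) ((p * v) • x₀) =
      gromovProd (u⁻¹ • x₀) x₀ ((u⁻¹ * v) • x₀) := by
    unfold gromovProd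
    have e1 : dist ((p * u) • x₀) (p • x₀) = dist x₀ (u⁻¹ • x₀) := by
      rw [dist_smul_smul hG]
      congr 2
      group
    have e2 : dist ((p * v) • x₀) (p • x₀) = dist ((u⁻¹ * v) • x₀) (u⁻¹ • x₀) := by
      rw [dist_smul_smul hG, dist_smul_smul hG]
      congr 2
      group
    have e3 : dist ((p * u) • x₀) ((p * v) • x₀) = dist x₀ ((u⁻¹ * v) • x₀) := by
      rw [dist_smul_smul hG]
      congr 2
      group
    rw [e1, e2, e3]
  linarith

/-- The set of the limits of positive words in two letters has positive Hausdorff dimension. -/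
theorem dim_pos (hX : IsTree X) (hG : IsGeometric (FreeGroup α) X) (x₀ : X) (a : ℝ) (ha : 1 < a)
    (m : MetricSpace (Boundary (gens α))) (hm : IsVisual (gens α) x₀ a m)
    {lt : Fin 2 → α} (hlt : Function.Injective lt) :
    0 < hausdorffDim m (Set.range (pend lt)) := by
  obtain ⟨L, K, hL, hLK⟩ := orbit_branch hX hG x₀
  obtain ⟨C, hC0, hC⟩ := hm
  have ha0 : 0 < a := by linarith
  -- lower bound of distances
  have hdist : ∀ (d d' : ℕ → Fin 2) (k : ℕ), (∀ i, i < k → d i = d' i) → d k ≠ d' k →
      C⁻¹ * a ^ (-(L * k + K)) ≤ m.dist (pend lt d) (pend lt d') := by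
    intro d d' k hk1 hk2
    have hne : pend lt d ≠ pend lt d' := by
      intro h
      exact hk2 (congrFun (pend_injective hlt h) k)
    obtain ⟨N, hN⟩ := hC _ _ _ _ (convTo_pend lt d) (convTo_pend lt d') hne
    have h1 := (hN (N + k + 1) (N + k + 1) (by omega) (by omega)).1
    refine le_trans ?_ h1
    obtain ⟨u, v, huv, e1, e2⟩ := pos_branch hlt hk1 hk2 (i := N + k + 1) (j := N + k + 1)
      (by omega) (by omega)
    have h2 := hLK (pos lt d 0 k) u v huv
    rw [← e1, ← e2, norm_pos'] at h2
    apply mul_le_mul_of_nonneg_left _ (by positivity)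
    apply Real.rpow_le_rpow_of_exponent_le ha.le
    linarith
  -- the exponent
  set r : ℝ := Real.log 2 / (L * Real.log a) with hr
  have hloga : 0 < Real.log a := Real.log_pos ha
  have hlog2 : 0 < Real.log 2 := Real.log_pos one_lt_two
  have hr0 : 0 < r := by positivity
  have har : a ^ (L * r) = 2 := by
    rw [Real.rpow_def_of_pos ha0, hr]
    have : Real.log a * (L * (Real.log 2 / (L * Real.log a))) = Real.log 2 := by
      field_simp
    rw [this, Real.exp_log two_pos]
  -- the map to the reals
  classical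
  let _ := m
  set f : Boundary (gens α) → ℝ := fun ξ =>
    if h : ∃ d, pend lt d = ξ then Real.ofDigits h.choose else 0 with hf
  have hfd : ∀ d, f (pend lt d) = Real.ofDigits d := by
    intro d
    have h : ∃ d', pend lt d' = pend lt d := ⟨d, rfl⟩
    have e : h.choose = d := pend_injective hlt h.choose_spec
    simp only [hf]
    rw [dif_pos h, e]
  set D : ℝ := (C * a ^ K) ^ r with hD
  have hD0 : 0 ≤ D := by positivity
  have hbound : ∀ d d' : ℕ → Fin 2, dist (f (pend lt d)) (f (pend lt d')) ≤
      D * (dist (pend lt d) (pend lt d')) ^ r := by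
    intro d d'
    by_cases hdd : d = d'
    · subst hdd
      rw [dist_self]
      exact mul_nonneg hD0 (Real.rpow_nonneg dist_nonneg _)
    obtain ⟨k, hk1, hk2⟩ := exists_first hdd
    rw [hfd, hfd, Real.dist_eq]
    have h1 : |Real.ofDigits d - Real.ofDigits d'| ≤ (((2 : ℕ) : ℝ) ^ k)⁻¹ :=
      Real.abs_ofDigits_sub_ofDigits_le (fun i hi => hk1 i hi)
    refine h1.trans ?_
    have h2 : C⁻¹ * a ^ (-(L * k + K)) ≤ dist (pend lt d) (pend lt d') := hdist d d' k hk1 hk2
    have h3 : (C⁻¹ * a ^ (-(L * k + K))) ^ r ≤ (dist (pend lt d) (pend lt d')) ^ r :=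
      Real.rpow_le_rpow (by positivity) h2 hr0.le
    have h4 : (((2 : ℕ) : ℝ) ^ k)⁻¹ = D * (C⁻¹ * a ^ (-(L * k + K))) ^ r := by
      rw [hD, ← Real.mul_rpow (by positivity) (by positivity)]
      have e1 : C * a ^ K * (C⁻¹ * a ^ (-(L * k + K))) = a ^ (-(L * k)) := by
        have : a ^ (-(L * k)) = a ^ K * a ^ (-(L * k + K)) := by
          rw [← Real.rpow_add ha0]
          congr 1
          ring
        rw [this]
        field_simp
      rw [e1, ← Real.rpow_mul ha0.le]
      have e2 : -(L * (k : ℝ)) * r = (L * r) * (-(k : ℝ)) := by ring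
      rw [e2, Real.rpow_mul ha0.le, har, Real.rpow_neg two_pos.le, Real.rpow_natCast]
      norm_num
    rw [h4]
    exact mul_le_mul_of_nonneg_left h3 hD0
  have hholder : HolderOnWith D.toNNReal r.toNNReal f (Set.range (pend lt)) := by
    rintro _ ⟨d, rfl⟩ _ ⟨d', rfl⟩
    rw [edist_dist, edist_dist]
    have h1 := ENNReal.ofReal_le_ofReal (hbound d d')
    refine h1.trans (le_of_eq ?_)
    rw [ENNReal.ofReal_mul hD0, Real.coe_toNNReal r hr0.le,
      ENNReal.ofReal_rpow_of_nonneg dist_nonneg hr0.le]
    rfl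
  have hdim := hholder.dimH_image_le (by simpa using hr0)
  have himg : Set.Ico (0 : ℝ) 1 ⊆ f '' (Set.range (pend lt)) := by
    intro x hx
    refine ⟨pend lt (Real.digits x 2), ⟨_, rfl⟩, ?_⟩
    rw [hfd]
    exact Real.ofDigits_digits one_lt_two hx
  have hone : dimH (Set.Ico (0 : ℝ) 1) = 1 := by
    have := Real.dimH_of_nonempty_interior (E := ℝ) (s := Set.Ico (0 : ℝ) 1) (by
      rw [interior_Ico]
      exact ⟨1 / 2, by norm_num, by norm_num⟩)
    simpa using this
  have hfinal : (1 : ENNReal) ≤ dimH (Set.range (pend lt)) / (r.toNNReal : ENNReal) := by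
    rw [← hone]
    exact (dimH_mono himg).trans hdim
  show 0 < dimH (Set.range (pend lt))
  rw [pos_iff_ne_zero]
  intro h0
  rw [h0, ENNReal.zero_div] at hfinal
  exact absurd hfinal (by simp)

end Pool.Agent.H204.BB
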