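import Mathlib
import Pool.Agent.H204.BB.CayTree

/-!
The Cayley tree of a finitely generated free group is a proper metric space.
-/

set_option autoImplicit false
set_option linter.unusedSectionVars false

namespace Pool.Agent.H204.BB

open FreeGroup Filter Topology Pool.Agent.R639.CT Pool.Agent.H322R3.Hyp

variable {α : Type} [DecidableEq α]

lemma cl_isometry (g : FreeGroup α) {t s : ℝ} (ht : t ∈ Set.Icc 0 (nn g))
    (hs : s ∈ Set.Icc 0 (nn g)) : dist (cl g t) (cl g s) = dist t s := by
  rw [cl_eq g ht.1 ht.2, cl_eq g hs.1 hs.2, dist_mkP, pp_self, Real.dist_eq]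
  rcases le_total t s with h | h
  · rw [min_eq_left h, min_eq_left ht.2, abs_sub_comm, abs_of_nonneg (by linarith)]
    ring
  · rw [min_eq_right h, min_eq_left hs.2, abs_of_nonneg (by linarith)]
    ring

lemma isCompact_seg (g : FreeGroup α) : IsCompact (cl g '' Set.Icc 0 (nn g)) := by
  apply isCompact_Icc.image_of_continuousOn
  rw [Metric.continuousOn_iff]
  intro b hb ε hε
  exact ⟨ε, hε, fun a ha h => by rwa [cl_isometry g ha hb]⟩

/-- The Cayley tree of a finitely generated free group is proper. -/
theorem properSpace_cTree [Finite α] : ProperSpace (CTree α) := by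
  refine ⟨fun x r => ?_⟩
  set R := ⌈r + dist x oo⌉₊ with hR
  have hfin : {g : FreeGroup α | FreeGroup.norm g ≤ R}.Finite := finite_norm R
  have hc : IsCompact (⋃ g ∈ {g : FreeGroup α | FreeGroup.norm g ≤ R},
      cl g '' Set.Icc 0 (nn g)) := hfin.isCompact_biUnion fun g _ => isCompact_seg g
  refine hc.of_isClosed_subset Metric.isClosed_closedBall ?_
  intro y hy
  obtain ⟨g, t, ht, ht', rfl⟩ := exists_mkP y
  have h1 : t ≤ R := by
    have h2 := dist_triangle (mkP g t ht ht') x oo
    rw [dist_oo] at h2
    rw [Metric.mem_closedBall] at hy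
    have h3 := Nat.le_ceil (r + dist x oo)
    linarith
  -- the vertex after the point
  set n := min ⌈t⌉₊ g.toWord.length with hn
  have hnlen : n ≤ g.toWord.length := min_le_right _ _
  set h := FreeGroup.mk (g.toWord.take n) with hh
  have hw : h.toWord = g.toWord.take n := toWord_mk_of_take g n
  have hnn : nn h = n := by
    unfold nn FreeGroup.norm
    rw [hw, List.length_take, min_eq_left hnlen]
  have hpp : pp g h = n := by
    unfold pp
    rw [hw]
    have := lcp_append (g.toWord.take n) (g.toWord.drop n)
    rw [List.take_append_drop, List.length_take, min_eq_left hnlen] at this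
    rw [this]
  have htn : t ≤ n := by
    rw [hn]
    push_cast
    exact le_min (Nat.le_ceil t) ht'
  have hnR : FreeGroup.norm h ≤ R := by
    have h4 : FreeGroup.norm h = n := by
      have : nn h = FreeGroup.norm h := rfl
      rw [this] at hnn
      exact_mod_cast hnn
    rw [h4]
    exact (min_le_left _ _).trans (Nat.ceil_le.2 h1)
  rw [Set.mem_iUnion₂]
  refine ⟨h, hnR, t, ⟨ht, by rw [hnn]; exact htn⟩, ?_⟩
  rw [cl_eq h ht (by rw [hnn]; exact htn)]
  exact (mkP_eq g h ht ht' (by rw [hnn]; exact htn) (by rw [hpp]; exact htn)).symm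

end Pool.Agent.H204.BB
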