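import Mathlib
import Pool.Agent.H204.BB.Dyn

/-!
A convergence action on a metrizable compactum is properly discontinuous on distinct triples.
-/

set_option autoImplicit false

namespace Pool.Agent.H204.BB

open Filter Topology Set Pool.Agent.H322R3.Hyp

variable {Γ X : Type*} [Group Γ] [TopologicalSpace X] [MulAction Γ X]

lemma ConvergesOff.tendsto [LocallyCompactSpace X] [T2Space X] {γ : ℕ → Γ} {b a : X}
    (h : ConvergesOff γ b a) {x : ℕ → X} {y : X} (hx : Tendsto x atTop (𝓝 y)) (hy : y ≠ b) :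
    Tendsto (fun n => γ n • x n) atTop (𝓝 a) := by
  obtain ⟨K, hK1, hK2, hK3⟩ := local_compact_nhds (isOpen_ne.mem_nhds hy)
  rw [tendsto_def]
  intro U hU
  have h1 := h K hK3 (fun hb => hK2 hb rfl) U hU
  have h2 : ∀ᶠ n in atTop, x n ∈ K := hx.eventually hK1
  filter_upwards [h1, h2] with n a1 a2
  exact a1 _ a2

lemma ConvergesOff.comp {γ : ℕ → Γ} {b a : X} (h : ConvergesOff γ b a) {φ : ℕ → ℕ}
    (hφ : StrictMono φ) : ConvergesOff (fun n => γ (φ n)) b a :=
  fun K hK hb U hU => hφ.tendsto_atTop.eventually (h K hK hb U hU)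

theorem isProperOnTriples [CompactSpace X] [TopologicalSpace.MetrizableSpace X]
    (h : IsConvergenceAction Γ X) : IsProperOnTriples Γ X := by
  intro K hK hKd
  by_contra hinf
  have hinf : {γ : Γ | ∃ t ∈ K, (γ • t.1, γ • t.2.1, γ • t.2.2) ∈ K}.Infinite := hinf
  set e := hinf.natEmbedding with he
  have hγ : Function.Injective (fun n => ((e n : _) : Γ)) := fun i j hij => e.injective
    (Subtype.ext hij)
  have hmem : ∀ n, ∃ t ∈ K, ((e n : Γ) • t.1, (e n : Γ) • t.2.1, (e n : Γ) • t.2.2) ∈ K :=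
    fun n => (e n).2
  choose t ht1 ht2 using hmem
  obtain ⟨φ, hφ, a, b, hab⟩ := h (fun n => ((e n : _) : Γ)) hγ
  have hab : ConvergesOff (fun n => ((e (φ n) : _) : Γ)) b a := hab
  obtain ⟨s, hs, ψ, hψ, hs2⟩ := hK.isSeqCompact (fun n => ht1 (φ n))
  obtain ⟨s', hs', χ, hχ, hs'2⟩ := hK.isSeqCompact (fun n => ht2 (φ (ψ n)))
  have hab2 := (hab.comp hψ).comp hχ
  have hs3 : Tendsto (fun n => t (φ (ψ (χ n)))) atTop (𝓝 s) := hs2.comp hχ.tendsto_atTop
  have hs4 : Tendsto (fun n => (((e (φ (ψ (χ n))) : _) : Γ) • (t (φ (ψ (χ n)))).1,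
      ((e (φ (ψ (χ n))) : _) : Γ) • (t (φ (ψ (χ n)))).2.1,
      ((e (φ (ψ (χ n))) : _) : Γ) • (t (φ (ψ (χ n)))).2.2)) atTop (𝓝 s') := hs'2
  have c1 : s.1 ≠ b → s'.1 = a := by
    intro hne
    have h1 := hab2.tendsto ((continuous_fst.tendsto s).comp hs3) hne
    have h2 := (continuous_fst.tendsto s').comp hs4
    exact tendsto_nhds_unique h2 h1
  have c2 : s.2.1 ≠ b → s'.2.1 = a := by
    intro hne
    have h1 := hab2.tendsto (((continuous_fst.comp continuous_snd).tendsto s).comp hs3) hne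
    have h2 := ((continuous_fst.comp continuous_snd).tendsto s').comp hs4
    exact tendsto_nhds_unique h2 h1
  have c3 : s.2.2 ≠ b → s'.2.2 = a := by
    intro hne
    have h1 := hab2.tendsto (((continuous_snd.comp continuous_snd).tendsto s).comp hs3) hne
    have h2 := ((continuous_snd.comp continuous_snd).tendsto s').comp hs4
    exact tendsto_nhds_unique h2 h1
  obtain ⟨d1, d2, d3⟩ := hKd s hs
  obtain ⟨e1, e2, e3⟩ := hKd s' hs'
  by_cases b1 : s.1 = b
  · have b2 : s.2.1 ≠ b := fun h => d1 (b1.trans h.symm)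
    have b3 : s.2.2 ≠ b := fun h => d2 (b1.trans h.symm)
    exact e3 ((c2 b2).trans (c3 b3).symm)
  · by_cases b2 : s.2.1 = b
    · have b3 : s.2.2 ≠ b := fun h => d3 (b2.trans h.symm)
      exact e2 ((c1 b1).trans (c3 b3).symm)
    · exact e1 ((c1 b1).trans (c2 b2).symm)

end Pool.Agent.H204.BB
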