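import Mathlib
import Pool.Agent.H204.BB.CayTree

/-!
# The standard visual metric on the boundary of a free group
-/

set_option autoImplicit false
set_option linter.unusedSectionVars false

namespace Pool.Agent.H204.BB

open FreeGroup Filter Topology Pool.Agent.R639.CT Pool.Agent.H322R3.Hyp

variable {α : Type} [DecidableEq α]

lemma lcp_symm' (g h : FreeGroup α) : lcp g.toWord h.toWord = lcp h.toWord g.toWord := by
  have := pp_symm g h
  unfold pp at this
  exact_mod_cast this

lemma lcp_large {ζ : Boundary (gens α)} {x y : ℕ → FreeGroup α} (hx : ConvTo (gens α) x ζ)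
    (hy : ConvTo (gens α) y ζ) (M : ℕ) :
    ∃ N : ℕ, ∀ i j, N ≤ i → N ≤ j → M ≤ lcp (x i).toWord (y j).toWord := by
  obtain ⟨N, hN⟩ := hx.tendsto closure_free le_rfl hyp0 hy M
  refine ⟨N, fun i j hi hj => ?_⟩
  have h1 := hN i j hi hj
  rw [pp_eq] at h1
  unfold pp at h1
  exact_mod_cast h1

/-- The Gromov product of two different boundary points: it is the length of the common initial
segment of elements close to them. -/
lemma exists_prod {ξ η : Boundary (gens α)} (hne : ξ ≠ η) :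
    ∃ n : ℕ, ∀ x y : ℕ → FreeGroup α, ConvTo (gens α) x ξ → ConvTo (gens α) y η →
      ∃ N : ℕ, ∀ i j, N ≤ i → N ≤ j → lcp (x i).toWord (y j).toWord = n := by
  have hbe : ¬ BEquiv (gens α) (rp ξ) (rp η) := by
    intro h
    apply hne
    rw [← bmk_rp ξ, ← bmk_rp η]
    exact Quot.sound h
  obtain ⟨M, N0, hM⟩ := bounded_of_ne closure_free le_rfl hyp0 hbe
  -- a natural number above `M`
  obtain ⟨M', hM'⟩ := exists_nat_gt M
  have hb : ∀ i j, N0 ≤ i → N0 ≤ j → lcp ((rp ξ).1 i).toWord ((rp η).1 j).toWord < M' := by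
    intro i j hi hj
    have h1 := hM i j hi hj
    rw [pp_eq] at h1
    unfold pp at h1
    exact_mod_cast h1.trans_lt hM'
  obtain ⟨N1, h1⟩ := lcp_large (convTo_rp ξ) (convTo_rp ξ) M'
  obtain ⟨N2, h2⟩ := lcp_large (convTo_rp η) (convTo_rp η) M'
  set K := max N0 (max N1 N2) with hK
  have k0 : N0 ≤ K := le_max_left _ _
  have k1 : N1 ≤ K := (le_max_left _ _).trans (le_max_right _ _)
  have k2 : N2 ≤ K := (le_max_right _ _).trans (le_max_right _ _)
  refine ⟨lcp ((rp ξ).1 K).toWord ((rp η).1 K).toWord, fun x y hx hy => ?_⟩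
  obtain ⟨N3, h3⟩ := lcp_large hx (convTo_rp ξ) M'
  obtain ⟨N4, h4⟩ := lcp_large hy (convTo_rp η) M'
  refine ⟨max N3 N4, fun i j hi hj => ?_⟩
  have a1 : M' ≤ lcp (x i).toWord ((rp ξ).1 K).toWord := by
    have b1 := h3 i (max N3 K) ((le_max_left _ _).trans hi) (le_max_left _ _)
    have b2 := h1 (max N3 K) K (k1.trans (le_max_right _ _)) k1
    exact (le_min b1 b2).trans (lcp_ultra _ _ _)
  have a2 : M' ≤ lcp (y j).toWord ((rp η).1 K).toWord := by
    have b1 := h4 j (max N4 K) ((le_max_right _ _).trans hj) (le_max_left _ _)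
    have b2 := h2 (max N4 K) K (k2.trans (le_max_right _ _)) k2
    exact (le_min b1 b2).trans (lcp_ultra _ _ _)
  have a3 := hb K K k0 k0
  have a4 := lcp_ultra (x i).toWord ((rp ξ).1 K).toWord ((rp η).1 K).toWord
  have a5 := lcp_ultra (x i).toWord ((rp η).1 K).toWord (y j).toWord
  have a6 := lcp_ultra ((rp ξ).1 K).toWord (x i).toWord (y j).toWord
  have a7 := lcp_ultra ((rp ξ).1 K).toWord (y j).toWord ((rp η).1 K).toWord
  rw [lcp_symm' ((rp η).1 K) (y j)] at a5
  rw [lcp_symm' ((rp ξ).1 K) (x i)] at a6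
  rw [min_le_iff] at a4 a5 a6 a7
  omega

/-- the Gromov product of two different boundary points -/
noncomputable def np (ξ η : Boundary (gens α)) (h : ξ ≠ η) : ℕ := (exists_prod h).choose

lemma np_spec {ξ η : Boundary (gens α)} (h : ξ ≠ η) {x y : ℕ → FreeGroup α}
    (hx : ConvTo (gens α) x ξ) (hy : ConvTo (gens α) y η) :
    ∃ N : ℕ, ∀ i j, N ≤ i → N ≤ j → lcp (x i).toWord (y j).toWord = np ξ η h :=
  (exists_prod h).choose_spec x y hx hy

open Classical in
/-- the visual distance with parameter `2` -/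
noncomputable def vd (ξ η : Boundary (gens α)) : ℝ :=
  if h : ξ ≠ η then (2 : ℝ) ^ (-(np ξ η h : ℝ)) else 0

lemma vd_of_ne {ξ η : Boundary (gens α)} (h : ξ ≠ η) : vd ξ η = (2 : ℝ) ^ (-(np ξ η h : ℝ)) :=
  dif_pos h

lemma vd_self (ξ : Boundary (gens α)) : vd ξ ξ = 0 := dif_neg (by simp)

lemma vd_nonneg (ξ η : Boundary (gens α)) : 0 ≤ vd ξ η := by
  by_cases h : ξ = η
  · rw [h, vd_self]
  · rw [vd_of_ne h]
    positivity

lemma vd_comm (ξ η : Boundary (gens α)) : vd ξ η = vd η ξ := by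
  by_cases h : ξ = η
  · rw [h]
  · rw [vd_of_ne h, vd_of_ne (Ne.symm h)]
    obtain ⟨N, hN⟩ := np_spec h (convTo_rp ξ) (convTo_rp η)
    obtain ⟨N', hN'⟩ := np_spec (Ne.symm h) (convTo_rp η) (convTo_rp ξ)
    have h1 := hN (max N N') (max N N') (le_max_left _ _) (le_max_left _ _)
    have h2 := hN' (max N N') (max N N') (le_max_right _ _) (le_max_right _ _)
    rw [← h1, ← h2, lcp_symm']

lemma vd_ultra (ξ η ζ : Boundary (gens α)) : vd ξ ζ ≤ max (vd ξ η) (vd η ζ) := by
  by_cases h1 : ξ = η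
  · rw [h1]
    exact le_max_right _ _
  by_cases h2 : η = ζ
  · rw [h2]
    exact le_max_left _ _
  by_cases h3 : ξ = ζ
  · rw [h3, vd_self]
    exact (vd_nonneg _ _).trans (le_max_left _ _)
  rw [vd_of_ne h1, vd_of_ne h2, vd_of_ne h3]
  obtain ⟨N1, k1⟩ := np_spec h1 (convTo_rp ξ) (convTo_rp η)
  obtain ⟨N2, k2⟩ := np_spec h2 (convTo_rp η) (convTo_rp ζ)
  obtain ⟨N3, k3⟩ := np_spec h3 (convTo_rp ξ) (convTo_rp ζ)
  set K := max N1 (max N2 N3) with hK
  have a1 := k1 K K (le_max_left _ _) (le_max_left _ _)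
  have a2 := k2 K K ((le_max_left _ _).trans (le_max_right _ _))
    ((le_max_left _ _).trans (le_max_right _ _))
  have a3 := k3 K K ((le_max_right _ _).trans (le_max_right _ _))
    ((le_max_right _ _).trans (le_max_right _ _))
  have a4 := lcp_ultra ((rp ξ).1 K).toWord ((rp η).1 K).toWord ((rp ζ).1 K).toWord
  rw [a1, a2, a3, min_le_iff] at a4
  rw [le_max_iff]
  rcases a4 with a4 | a4
  · left
    apply Real.rpow_le_rpow_of_exponent_le one_le_two
    have : (np ξ η h1 : ℝ) ≤ np ξ ζ h3 := by exact_mod_cast a4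
    linarith
  · right
    apply Real.rpow_le_rpow_of_exponent_le one_le_two
    have : (np η ζ h2 : ℝ) ≤ np ξ ζ h3 := by exact_mod_cast a4
    linarith

variable (α) in
/-- the standard visual metric on the boundary of the free group -/
noncomputable def stdMetric : MetricSpace (Boundary (gens α)) where
  dist := vd
  dist_self := vd_self
  dist_comm := vd_comm
  dist_triangle ξ η ζ := by
    have h1 := vd_ultra ξ η ζ
    have h2 := vd_nonneg ξ η
    have h3 := vd_nonneg η ζ
    rcases le_max_iff.1 h1 with h | h <;> linarith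
  eq_of_dist_eq_zero := by
    intro ξ η h
    by_contra hne
    have h1 : vd ξ η = 0 := h
    rw [vd_of_ne hne] at h1
    have : (0 : ℝ) < (2 : ℝ) ^ (-(np ξ η hne : ℝ)) := by positivity
    linarith

theorem isVisual_std : IsVisual (gens α) (oo : CTree α) 2 (stdMetric α) := by
  refine ⟨1, one_pos, fun x y ξ η hx hy hne => ?_⟩
  obtain ⟨N, hN⟩ := np_spec hne hx hy
  refine ⟨N, fun i j hi hj => ?_⟩
  have h1 : (stdMetric α).dist ξ η = (2 : ℝ) ^ (-(np ξ η hne : ℝ)) := vd_of_ne hne
  rw [gromovProd_orbit, h1]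
  unfold pp
  rw [hN i j hi hj]
  simp

end Pool.Agent.H204.BB
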