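import Mathlib
import Pool.Agent.H204.BB.Triples
import Pool.Agent.H204.BB.DimLow
import Pool.Agent.H204.BB.VisEx
import Pool.Agent.H204.BB.Proper

/-!
Assembly for the free group of rank three and the free factor generated by the first two
letters.
-/

set_option autoImplicit false

namespace Pool.Agent.H204.BB

open Filter Topology Pool.Agent.R639.CT Pool.Agent.H322R3.Hyp

/-- the first two letters -/
def lt3 (i : Fin 2) : Fin 3 := Fin.castSucc i

lemma lt3_injective : Function.Injective lt3 := Fin.castSucc_injective 2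

lemma lt3_ne (i : Fin 2) : lt3 i ≠ (2 : Fin 3) := by
  unfold lt3
  fin_cases i <;> decide

lemma range_subset_nonConical : Set.range (pend lt3) ⊆
    ctMap (2 : Fin 3) ⁻¹' NonConical (FreeGroup (Fin 3)) (ZZ (2 : Fin 3)) := by
  rintro _ ⟨d, rfl⟩
  show ctMap (2 : Fin 3) (pend lt3 d) ∈ NonConical (FreeGroup (Fin 3)) (ZZ (2 : Fin 3))
  rw [ctMap_pend 2 lt3 lt3_ne]
  exact pt_mem_nonConical (lt3_ne 0)

lemma range_subset_endpoints : Set.range (pend lt3) ⊆
    {p | ∃ q, p ≠ q ∧ ctMap (2 : Fin 3) p = ctMap (2 : Fin 3) q} := by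
  rintro _ ⟨d, rfl⟩
  refine ⟨pend lt3 (fun i => 1 - d i), ?_, ?_⟩
  · intro h
    have := congrFun (pend_injective lt3_injective h) 0
    revert this
    generalize d 0 = e
    fin_cases e <;> simp
  · rw [ctMap_pend 2 lt3 lt3_ne, ctMap_pend 2 lt3 lt3_ne]

lemma infinite_boundary : Infinite (Boundary (gens (Fin 3))) := by
  have : Infinite (ℕ → Fin 2) := inferInstance
  exact Infinite.of_injective (pend lt3) (pend_injective lt3_injective)

lemma hausdorffDim_mono {Y : Type*} (m : MetricSpace Y) {A B : Set Y} (h : A ⊆ B) :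
    hausdorffDim m A ≤ hausdorffDim m B := by
  let _ := m
  exact dimH_mono h

end Pool.Agent.H204.BB
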